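import Mathlib

set_option autoImplicit false

/-!
# Closed unbounded and stationary subsets of a regular uncountable cardinal
-/

namespace Pool.Agent.K9h78.TR

open Cardinal Set

/-- The set of ordinals below the cardinal `κ`. -/
abbrev W (κ : Cardinal.{0}) : Type := κ.ord.ToType

/-- A set of ordinals below `κ` is unbounded. -/
def Unb {κ : Cardinal.{0}} (K : Set (W κ)) : Prop := ∀ b, ∃ c ∈ K, b < c

/-- A set of ordinals below `κ` is closed: it contains its limit points. -/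
def Clo {κ : Cardinal.{0}} (K : Set (W κ)) : Prop :=
  ∀ β, (∃ b, b < β) → (∀ b < β, ∃ c ∈ K, b < c ∧ c < β) → β ∈ K

/-- `S` is stationary: it meets every closed unbounded set. -/
def Stationary {κ : Cardinal.{0}} (S : Set (W κ)) : Prop :=
  ∀ C : Set (W κ), Unb C → Clo C → ∃ δ ∈ S, δ ∈ C

variable {κ : Cardinal.{0}}

theorem exists_ub (hκ : κ.IsRegular) {M : Type} (hM : #M < κ) (g : M → W κ) :
    ∃ β, ∀ m, g m < β := by
  by_contra hcon
  push Not at hcon
  have h1 : IsCofinal (range g) := fun β => by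
    obtain ⟨m, hm⟩ := hcon β
    exact ⟨g m, ⟨m, rfl⟩, hm⟩
  have h2 := Order.cof_le h1
  rw [Ordinal.cof_toType, hκ.cof_ord] at h2
  exact absurd (h2.trans mk_range_le) (not_le.2 hM)

theorem mk_Iio_lt' (β : W κ) : #(Iio β) < κ := by
  have := Cardinal.mk_Iio_lt β (by rw [mk_ord_toType]; exact (Ordinal.type_toType _).symm)
  rwa [mk_ord_toType] at this

theorem exists_gt' (hκ : κ.IsRegular) (b : W κ) : ∃ c, b < c := by
  obtain ⟨c, hc⟩ := exists_ub hκ (M := Unit)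
    (by rw [mk_unit]; exact one_lt_aleph0.trans_le hκ.aleph0_le) fun _ => b
  exact ⟨c, hc ()⟩

theorem mk_Iic_lt' (hκ : κ.IsRegular) (b : W κ) : #(Iic b) < κ := by
  obtain ⟨c, hc⟩ := exists_gt' hκ b
  exact (mk_le_mk_of_subset (Iic_subset_Iio.2 hc)).trans_lt (mk_Iio_lt' c)

theorem mk_prod_le {A B : Type} {c : Cardinal.{0}} (hc : ℵ₀ ≤ c) (hA : #A ≤ c) (hB : #B ≤ c) :
    #(A × B) ≤ c := by
  simp only [mk_prod, lift_id]
  exact (mul_le_mul' hA hB).trans (mul_eq_self hc).le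

/-- diagonal intersections of fewer than `κ` many clubs at each point -/
theorem diag (hκ : κ.IsRegular) (h0 : ℵ₀ < κ) {M : Type} (hM : #M < κ)
    (K : W κ → M → Set (W κ)) (hU : ∀ i m, Unb (K i m)) (hC : ∀ i m, Clo (K i m)) :
    Unb {β | ∀ i < β, ∀ m, β ∈ K i m} := by
  intro b0
  have hstep : ∀ b : W κ, ∃ b', b < b' ∧ ∀ i < b, ∀ m, ∃ c ∈ K i m,
      b < c ∧ c < b' := by
    intro b
    have hcard : #(Iio b × M) < κ := by
      rw [mk_prod, lift_id, lift_id]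
      exact mul_lt_of_lt hκ.aleph0_le (mk_Iio_lt' b) hM
    choose c hc hbc using fun p : Iio b × M => hU p.1.1 p.2 b
    obtain ⟨b', hb'⟩ := exists_ub hκ hcard c
    obtain ⟨b1, hb1⟩ := exists_gt' hκ b
    exact ⟨max b' b1, hb1.trans_le (le_max_right _ _), fun i hi m => ⟨c (⟨i, hi⟩, m),
      hc (⟨i, hi⟩, m), hbc _, (hb' _).trans_le (le_max_left _ _)⟩⟩
  choose nx hnx hnx2 using hstep
  let s : ℕ → W κ := fun n => nx^[n] (nx b0)
  have hs : ∀ n, s (n + 1) = nx (s n) := fun n => Function.iterate_succ_apply' _ _ _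
  obtain ⟨u, hu⟩ := exists_ub hκ (M := ℕ) (by rw [mk_nat]; exact h0) s
  have hne : {u | ∀ n, s n < u}.Nonempty := ⟨u, hu⟩
  let β := WellFounded.min (wellFounded_lt (α := W κ)) {u | ∀ n, s n < u} hne
  have hβ : ∀ n, s n < β := WellFounded.min_mem _ _ hne
  have hmin : ∀ b < β, ∃ n, b ≤ s n := by
    intro b hb
    by_contra hcon
    push Not at hcon
    exact WellFounded.not_lt_min (wellFounded_lt (α := W κ)) {u | ∀ n, s n < u}
      (show b ∈ {u | ∀ n, s n < u} from hcon) hb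
  have hmono : StrictMono s := strictMono_nat_of_lt_succ fun n => by
    rw [hs]; exact hnx _
  refine ⟨β, fun i hi m => hC i m β ⟨_, hβ 0⟩ fun b hb => ?_, (hnx b0).trans (hβ 0)⟩
  obtain ⟨n1, h1⟩ := hmin _ hb
  obtain ⟨n2, h2⟩ := hmin _ hi
  have h3 : i < s (max n1 n2 + 1) :=
    (h2.trans (hmono.monotone (le_max_right _ _))).trans_lt (hmono (Nat.lt_succ_self _))
  obtain ⟨c, hc, hc1, hc2⟩ := hnx2 _ i h3 m
  refine ⟨c, hc, lt_of_le_of_lt ?_ hc1, hc2.trans ?_⟩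
  · exact h1.trans (hmono.monotone ((le_max_left _ _).trans (Nat.le_succ _)))
  · rw [← hs]; exact hβ _

theorem clo_iInter {M : Type} {C : M → Set (W κ)} (h : ∀ m, Clo (C m)) :
    Clo {β | ∀ m, β ∈ C m} := by
  intro β hb hc m
  refine h m β hb fun b hb' => ?_
  obtain ⟨c, h1, h2, h3⟩ := hc b hb'
  exact ⟨c, h1 m, h2, h3⟩

theorem unb_iInter (hκ : κ.IsRegular) (h0 : ℵ₀ < κ) {M : Type} (hM : #M < κ)
    {C : M → Set (W κ)} (hU : ∀ m, Unb (C m)) (h : ∀ m, Clo (C m)) :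
    Unb {β | ∀ m, β ∈ C m} := by
  intro b
  obtain ⟨c, hc, hbc⟩ := diag hκ h0 hM (fun _ m => C m) (fun _ m => hU m) (fun _ m => h m) b
  exact ⟨c, fun m => hc b hbc m, hbc⟩

theorem clo_inter {C D : Set (W κ)} (h : Clo C) (h' : Clo D) : Clo (C ∩ D) := by
  intro β hb hc
  exact ⟨h β hb fun b hb' => by
    obtain ⟨c, h1, h2, h3⟩ := hc b hb'
    exact ⟨c, h1.1, h2, h3⟩, h' β hb fun b hb' => by
    obtain ⟨c, h1, h2, h3⟩ := hc b hb'
    exact ⟨c, h1.2, h2, h3⟩⟩

theorem unb_inter (hκ : κ.IsRegular) (h0 : ℵ₀ < κ) {C D : Set (W κ)} (hU : Unb C)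
    (h : Clo C) (hU' : Unb D) (h' : Clo D) : Unb (C ∩ D) := by
  intro b
  obtain ⟨c, hc, hbc⟩ := unb_iInter hκ h0 (M := Bool)
    ((mk_le_aleph0).trans_lt h0) (C := fun m => if m then C else D)
    (by intro m; cases m <;> simpa) (by intro m; cases m <;> simpa) b
  exact ⟨c, ⟨by simpa using hc true, by simpa using hc false⟩, hbc⟩

/-- the points closed under a function -/
def Cl (f : W κ → W κ) : Set (W κ) := {β | ∀ i < β, f i < β}

theorem clo_Cl (f : W κ → W κ) : Clo (Cl f) := by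
  intro β _ hc i hi
  obtain ⟨c, h1, h2, h3⟩ := hc i hi
  exact (h1 i h2).trans h3

theorem unb_Cl (hκ : κ.IsRegular) (h0 : ℵ₀ < κ) (f : W κ → W κ) : Unb (Cl f) := by
  intro b
  obtain ⟨c, hc, hbc⟩ := diag hκ h0 (M := Unit)
    (by rw [mk_unit]; exact one_lt_aleph0.trans h0) (fun i _ => {β | f i < β})
    (fun i _ b => by
      obtain ⟨c, hc⟩ := exists_gt' hκ (max (f i) b)
      exact ⟨c, (le_max_left _ _).trans_lt hc, (le_max_right _ _).trans_lt hc⟩)
    (fun i _ β hb hc => by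
      obtain ⟨b, hb⟩ := hb
      obtain ⟨c, h1, h2, h3⟩ := hc b hb
      exact (show f i < c from h1).trans h3) b
  exact ⟨c, fun i hi => hc i hi (), hbc⟩

/-- the intersection of a stationary set with a club is stationary -/
theorem Stationary.inter (hκ : κ.IsRegular) (h0 : ℵ₀ < κ) {S C : Set (W κ)}
    (hS : Stationary S) (hU : Unb C) (h : Clo C) : Stationary (S ∩ C) := by
  intro D hU' h'
  obtain ⟨δ, h1, h2⟩ := hS (C ∩ D) (unb_inter hκ h0 hU h hU' h') (clo_inter h h')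
  exact ⟨δ, ⟨h1, h2.1⟩, h2.2⟩

/-- the limit points -/
def Lm (κ : Cardinal.{0}) : Set (W κ) := {β | ∀ i < β, ∃ j, i < j ∧ j < β}

theorem cl_sub_lm (hκ : κ.IsRegular) : ∃ f : W κ → W κ, Cl f ⊆ Lm κ := by
  choose f hf using fun b : W κ => exists_gt' hκ b
  exact ⟨f, fun β hβ i hi => ⟨f i, hf i, hβ i hi⟩⟩

end Pool.Agent.K9h78.TR
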