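import Mathlib
import Pool.Agent.K9h78.TR.Club

set_option autoImplicit false

/-!
# Transversals of almost disjoint families: definitions
-/

namespace Pool.Agent.K9h78.TR

open Cardinal Set

/-- The degree of disjunction `δ(𝒜)`: the least cardinal `δ` such that `|A ∩ B| < δ` for all
distinct members `A`, `B` of `𝒜`. -/
noncomputable def degree {Ω : Type} (𝒜 : Set (Set Ω)) : Cardinal.{0} :=
  sInf {δ | ∀ A ∈ 𝒜, ∀ B ∈ 𝒜, A ≠ B → #(A ∩ B : Set Ω) < δ}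

/-- `T` is a `θ`-transversal of `𝒜`: it meets every member of `𝒜` in a nonempty set of
cardinality less than `θ`. -/
def IsTransversal {Ω : Type} (θ : Cardinal.{0}) (𝒜 : Set (Set Ω)) (T : Set Ω) : Prop :=
  ∀ A ∈ 𝒜, (T ∩ A).Nonempty ∧ #(T ∩ A : Set Ω) < θ

/-- There is a family of `κ` sets, each of cardinality `κ`, of degree of disjunction `lam`,
which has no `lam⁺`-transversal. -/
def BadFamily (κ lam : Cardinal.{0}) : Prop :=
  ∃ (Ω : Type) (𝒜 : Set (Set Ω)), #𝒜 = κ ∧ (∀ A ∈ 𝒜, #A = κ) ∧ degree 𝒜 = lam ∧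
    ¬ ∃ T, IsTransversal (Order.succ lam) 𝒜 T

/-- There are a stationary set `S ⊆ κ` and sets `H δ ⊆ δ` (`δ ∈ S`) of more than `lam` ordinals,
any two of which have fewer than `lam` common elements. -/
def StatFamily (κ lam : Cardinal.{0}) : Prop :=
  ∃ (S : Set (W κ)) (H : W κ → Set (W κ)), Stationary S ∧ (∀ δ ∈ S, ∀ x ∈ H δ, x < δ) ∧
    (∀ δ ∈ S, lam < #(H δ)) ∧ ∀ γ ∈ S, ∀ δ ∈ S, γ ≠ δ → #(H γ ∩ H δ : Set (W κ)) < lam

theorem lt_degree {Ω : Type} {𝒜 : Set (Set Ω)} {A B : Set Ω} (hA : A ∈ 𝒜) (hB : B ∈ 𝒜)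
    (h : A ≠ B) : #(A ∩ B : Set Ω) < degree 𝒜 := by
  have hne : {δ : Cardinal.{0} | ∀ A ∈ 𝒜, ∀ B ∈ 𝒜, A ≠ B → #(A ∩ B : Set Ω) < δ}.Nonempty :=
    ⟨Order.succ #Ω, fun A _ B _ _ => (mk_set_le _).trans_lt (Order.lt_succ _)⟩
  exact csInf_mem hne A hA B hB h

end Pool.Agent.K9h78.TR
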