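import Mathlib
import Pool.Agent.K9h78.TR.Club

set_option autoImplicit false

/-!
# The diamond principle at the successor of a singular cardinal (after Shelah)

If `2 ^ η = η⁺` and `S` is a stationary subset of `η⁺` consisting of limit ordinals whose
cofinality is larger than the number of pieces of size less than `η` into which `η` can be
partitioned, then there is a sequence of functions which guesses every function on stationarily
many initial segments in `S`.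
-/

namespace Pool.Agent.K9h78.TR

open Cardinal Set

variable {η : Cardinal.{0}}

theorem mk_fun_le (hη : ℵ₀ ≤ η) (hG : (2 : Cardinal.{0}) ^ η = Order.succ η) {E : Type}
    (hE : #E ≤ η) : #(E → W (Order.succ η)) ≤ Order.succ η := by
  rw [← power_def, mk_ord_toType, ← hG, ← power_mul]
  refine power_le_power_left two_ne_zero ?_
  exact (mul_le_mul' le_rfl hE).trans (mul_eq_self hη).le

theorem mk_Iio_le (β : W (Order.succ η)) : #(Iio β) ≤ η := Order.lt_succ_iff.1 (mk_Iio_lt' β)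

theorem diamond (hη : ℵ₀ ≤ η) (hG : (2 : Cardinal.{0}) ^ η = Order.succ η) {M : Type}
    (hM : #M ≤ η) (part : ∀ E : Type, #E ≤ η → ∃ p : E → M, ∀ m, #{x // p x = m} < η)
    {S : Set (W (Order.succ η))} (hS : Stationary S) (hlim : S ⊆ Lm (Order.succ η))
    (hcof : ∀ δ ∈ S, ∀ b : M → W (Order.succ η), (∀ m, b m < δ) → ∃ c < δ, ∀ m, b m ≤ c) :
    ∃ G : W (Order.succ η) → W (Order.succ η) → W (Order.succ η),
      ∀ t : W (Order.succ η) → W (Order.succ η), ∀ C : Set (W (Order.succ η)), Unb C → Clo C →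
        ∃ δ ∈ S, δ ∈ C ∧ ∀ ε < δ, G δ ε = t ε := by
  classical
  have hκ : (Order.succ η).IsRegular := isRegular_succ hη
  have h0 : ℵ₀ < Order.succ η := hη.trans_lt (Order.lt_succ η)
  let N : Type := η.ord.ToType
  have hN : #N = η := mk_ord_toType η
  have emb : ∀ ε : W (Order.succ η), Nonempty ((N → Iio ε → W (Order.succ η)) ↪
      W (Order.succ η)) := by
    intro ε
    have h1 : #(Iio ε → W (Order.succ η)) ≤ #(W (Order.succ η)) := by
      rw [mk_ord_toType]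
      exact mk_fun_le hη hG (mk_Iio_le ε)
    have h2 : #(N → Iio ε → W (Order.succ η)) ≤ #(N → W (Order.succ η)) := by
      obtain ⟨e⟩ : Nonempty ((Iio ε → W (Order.succ η)) ↪ W (Order.succ η)) := h1
      exact ⟨⟨fun g n => e (g n), fun g g' h => funext fun n => e.injective (congrFun h n)⟩⟩
    have h3 : #(N → Iio ε → W (Order.succ η)) ≤ #(W (Order.succ η)) := by
      refine h2.trans ?_
      rw [mk_ord_toType (Order.succ η)]
      exact mk_fun_le hη hG hN.le
    exact h3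
  have en : ∀ ε : W (Order.succ η), (N → Iio ε → W (Order.succ η)) ↪ W (Order.succ η) :=
    fun ε => (emb ε).some
  let rs : (N → W (Order.succ η) → W (Order.succ η)) → (ε : W (Order.succ η)) →
      (N → Iio ε → W (Order.succ η)) := fun Z ε n ζ => Z n ζ.1
  have hpp : ∀ δ : W (Order.succ η), ∃ p : (Iio δ × Iio δ) → M, ∀ m, #{x // p x = m} < η := by
    intro δ
    exact part _ (mk_prod_le hη (mk_Iio_le δ) (mk_Iio_le δ))
  choose p hp using hpp
  obtain ⟨π⟩ : Nonempty (M × N ↪ N) := by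
    have : #(M × N) ≤ #N := by
      rw [hN]
      exact mk_prod_le hη hM hN.le
    exact this
  let dec : M → (ε : W (Order.succ η)) → (N → Iio ε → W (Order.succ η)) →
      (N → Iio ε → W (Order.succ η)) := fun m ε Y n => Y (π (m, n))
  let Gd : M → W (Order.succ η) → (ε : W (Order.succ η)) → (N → Iio ε → W (Order.succ η)) →
      Prop := fun m δ ε Y => ∃ (h1 : ε < δ) (h2 : en ε Y < δ),
        p δ (⟨ε, h1⟩, ⟨en ε Y, h2⟩) = m
  have claim1 : ∃ m : M, ∀ Z : N → W (Order.succ η) → W (Order.succ η),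
      ∀ C : Set (W (Order.succ η)), Unb C → Clo C → ∃ δ ∈ S, δ ∈ C ∧
        ∀ b < δ, ∃ ε, b < ε ∧ ∃ Y, Gd m δ ε Y ∧ dec m ε Y = rs Z ε := by
    by_contra hcon
    push Not at hcon
    choose Zm Cm hCU hCC hbad using hcon
    let Z : N → W (Order.succ η) → W (Order.succ η) := fun k =>
      Function.extend π (fun q => Zm q.1 q.2) (fun _ => fun w => w) k
    have hZ : ∀ m n, Z (π (m, n)) = Zm m n := fun m n => π.injective.extend_apply _ _ _
    let f : W (Order.succ η) → W (Order.succ η) := fun ε => en ε (rs Z ε)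
    have hMκ : #M < Order.succ η := Order.lt_succ_iff.2 hM
    obtain ⟨δ, hδS, hδ1, hδ2⟩ := hS ({β | ∀ m, β ∈ Cm m} ∩ Cl f)
      (unb_inter hκ h0 (unb_iInter hκ h0 hMκ hCU hCC) (clo_iInter hCC) (unb_Cl hκ h0 f)
        (clo_Cl f)) (clo_inter (clo_iInter hCC) (clo_Cl f))
    choose b hb1 hb2 using fun m => hbad m δ hδS (hδ1 m)
    obtain ⟨c, hc, hbc⟩ := hcof δ hδS b hb1
    obtain ⟨ε, hε1, hε2⟩ := hlim hδS c hc
    have h4 : en ε (rs Z ε) < δ := hδ2 ε hε2
    refine hb2 (p δ (⟨ε, hε2⟩, ⟨en ε (rs Z ε), h4⟩)) ε ((hbc _).trans_lt hε1) (rs Z ε)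
      ⟨hε2, h4, rfl⟩ ?_
    funext n ζ
    show Z (π (_, n)) ζ.1 = Zm _ n ζ.1
    rw [hZ]
  obtain ⟨m, hm⟩ := claim1
  by_contra hno
  push Not at hno
  let V : (τ : N) → (∀ σ, σ < τ → W (Order.succ η) → W (Order.succ η)) →
      W (Order.succ η) → (ε : W (Order.succ η)) → (N → Iio ε → W (Order.succ η)) → Prop :=
    fun τ h δ ε Y => Gd m δ ε Y ∧ ∀ σ (hσ : σ < τ), ∀ ζ : Iio ε, dec m ε Y σ ζ = h σ hσ ζ.1
  let G : (τ : N) → (∀ σ, σ < τ → W (Order.succ η) → W (Order.succ η)) →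
      W (Order.succ η) → W (Order.succ η) → W (Order.succ η) := fun τ h δ ζ =>
    if hx : ∃ q : (Σ ε : W (Order.succ η), (N → Iio ε → W (Order.succ η))),
        V τ h δ q.1 q.2 ∧ ζ < q.1 then
      dec m _ hx.choose.2 τ ⟨ζ, hx.choose_spec.2⟩ else ζ
  choose t Ct hU hC ht using
    fun (τ : N) (h : ∀ σ, σ < τ → W (Order.succ η) → W (Order.succ η)) => hno (G τ h)
  let Z : N → W (Order.succ η) → W (Order.succ η) :=
    WellFounded.fix (wellFounded_lt (α := N)) (C := fun _ => W (Order.succ η) → W (Order.succ η))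
      (fun τ h => t τ h)
  have hZ : ∀ τ, Z τ = t τ (fun σ _ => Z σ) := fun τ => WellFounded.fix_eq _ _ _
  have hNκ : #N < Order.succ η := by rw [hN]; exact Order.lt_succ η
  obtain ⟨δ, hδS, hδC, hδ⟩ := hm Z {β | ∀ τ : N, β ∈ Ct τ (fun σ _ => Z σ)}
    (unb_iInter hκ h0 hNκ (fun τ => hU _ _) fun τ => hC _ _) (clo_iInter fun τ => hC _ _)
  have hv : ∀ τ : N, ∃ q : (Σ ε : W (Order.succ η), (N → Iio ε → W (Order.succ η))),
      V τ (fun σ _ => Z σ) δ q.1 q.2 ∧ ∃ ζ : Iio q.1, dec m _ q.2 τ ζ ≠ Z τ ζ.1 := by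
    intro τ
    obtain ⟨ζ, hζ, hne⟩ := ht τ (fun σ _ => Z σ) δ hδS (hδC τ)
    have hx : ∃ q : (Σ ε : W (Order.succ η), (N → Iio ε → W (Order.succ η))),
        V τ (fun σ _ => Z σ) δ q.1 q.2 ∧ ζ < q.1 := by
      obtain ⟨ε, hε, Y, hY1, hY2⟩ := hδ ζ hζ
      refine ⟨⟨ε, Y⟩, ⟨hY1, fun σ _ ξ => ?_⟩, hε⟩
      show dec m ε Y σ ξ = Z σ ξ.1
      rw [hY2]
    refine ⟨hx.choose, hx.choose_spec.1, ⟨ζ, hx.choose_spec.2⟩, ?_⟩
    have h5 : G τ (fun σ _ => Z σ) δ ζ = dec m _ hx.choose.2 τ ⟨ζ, hx.choose_spec.2⟩ :=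
      dif_pos hx
    rw [← h5, hZ τ]
    exact hne
  choose v hv1 hv2 using hv
  choose h1 h2 h3 using fun τ => (hv1 τ).1
  let F : N → {x : Iio δ × Iio δ // p δ x = m} := fun τ =>
    ⟨(⟨(v τ).1, h1 τ⟩, ⟨en _ (v τ).2, h2 τ⟩), h3 τ⟩
  have hFv : ∀ τ τ', F τ = F τ' → v τ = v τ' := by
    intro τ τ' h
    have e1 : (v τ).1 = (v τ').1 := congrArg (fun x => x.1.1.1) h
    have e2 : en _ (v τ).2 = en _ (v τ').2 := congrArg (fun x => x.1.2.1) h
    have key : ∀ q q' : (Σ ε : W (Order.succ η), (N → Iio ε → W (Order.succ η))),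
        q.1 = q'.1 → en _ q.2 = en _ q'.2 → q = q' := by
      rintro ⟨ε, Y⟩ ⟨ε', Y'⟩ h h'
      obtain rfl : ε = ε' := h
      have := (en ε).injective h'
      rw [show Y = Y' from this]
    exact key _ _ e1 e2
  have hlt : ∀ τ τ', τ < τ' → v τ ≠ v τ' := by
    intro τ τ' hτ heq
    obtain ⟨ζ, hζ⟩ := hv2 τ
    have h6 := (hv1 τ').2 τ hτ
    rw [← heq] at h6
    exact hζ (h6 ζ)
  have hF : Function.Injective F := by
    intro τ τ' h
    rcases lt_trichotomy τ τ' with h7 | h7 | h7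
    · exact absurd (hFv τ τ' h) (hlt τ τ' h7)
    · exact h7
    · exact absurd (hFv τ τ' h).symm (hlt τ' τ h7)
  have h8 := mk_le_of_injective hF
  rw [hN] at h8
  exact absurd (hp δ m) (not_lt.2 h8)

end Pool.Agent.K9h78.TR
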