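import Mathlib
import Pool.Agent.K9h78.TR.Diamond

set_option autoImplicit false

/-!
# Systems of small sets, and transversals
-/

namespace Pool.Agent.K9h78.TR

open Cardinal Set

variable {lam η : Cardinal.{0}}

/-- auxiliary data: partitions of the ordinals below `η⁺` into few small pieces, a numbering of
the sequences of length `lam`, and a function which bounds the numbers of the sequences inside
the pieces -/
structure Setup (lam η : Cardinal.{0}) where
  /-- the pieces -/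
  M : Type
  hM : #M ≤ lam
  /-- bounds for the sizes of the pieces -/
  θ : M → Cardinal.{0}
  hθ : ∀ m, θ m < η
  /-- the partitions -/
  p : ∀ γ : W (Order.succ η), Iio γ → M
  hp : ∀ γ m, #{x // p γ x = m} ≤ θ m
  /-- the numbering -/
  en : (lam.ord.ToType → W (Order.succ η)) ↪ W (Order.succ η)
  /-- the bound -/
  g : W (Order.succ η) → W (Order.succ η)
  hg : ∀ γ m (f : lam.ord.ToType → W (Order.succ η)),
    (∀ l, ∃ h : f l < γ, p γ ⟨f l, h⟩ = m) → en f < g γ

theorem exists_setup (hlam : ℵ₀ ≤ lam) (hlt : lam < η) (hsl : ∀ x < η, (2 : Cardinal.{0}) ^ x < η)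
    (hG : (2 : Cardinal.{0}) ^ η = Order.succ η) {M : Type}
    (hM : #M ≤ lam) (θ : M → Cardinal.{0}) (hθ : ∀ m, θ m < η)
    (part : ∀ E : Type, #E ≤ η → ∃ p : E → M, ∀ m, #{x // p x = m} ≤ θ m) :
    Nonempty (Setup lam η) := by
  have hη : ℵ₀ ≤ η := hlam.trans hlt.le
  have hκ : (Order.succ η).IsRegular := isRegular_succ hη
  choose p hp using fun γ : W (Order.succ η) => part (Iio γ) (mk_Iio_le γ)
  have hen : Nonempty ((lam.ord.ToType → W (Order.succ η)) ↪ W (Order.succ η)) := by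
    have h1 : #(lam.ord.ToType → W (Order.succ η)) ≤ #(W (Order.succ η)) := by
      rw [mk_ord_toType (Order.succ η)]
      exact mk_fun_le hη hG ((mk_ord_toType lam).trans_le hlt.le)
    exact h1
  obtain ⟨en⟩ := hen
  have hpow : ∀ γ m, #(lam.ord.ToType → {x // p γ x = m}) ≤ η := by
    intro γ m
    rw [← power_def, mk_ord_toType]
    refine (power_le_power_right (cantor _).le).trans ?_
    rw [← power_mul]
    exact (hsl _ (mul_lt_of_lt hη ((hp γ m).trans_lt (hθ m)) hlt)).le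
  have hub : ∀ γ : W (Order.succ η), ∃ u, ∀ q : (Σ m : M, (lam.ord.ToType →
      {x // p γ x = m})), en (fun l => (q.2 l).1.1) < u := by
    intro γ
    refine exists_ub hκ ?_ _
    rw [mk_sigma]
    refine ((sum_le_mk_mul_iSup _).trans ?_).trans_lt (Order.lt_succ η)
    exact (mul_le_mul' (hM.trans hlt.le) (ciSup_le' (hpow γ))).trans (mul_eq_self hη).le
  choose g hg using hub
  refine ⟨⟨M, hM, θ, hθ, p, hp, en, g, fun γ m f hf => ?_⟩⟩
  choose h1 h2 using hf
  exact hg γ ⟨m, fun l => ⟨⟨f l, h1 l⟩, h2 l⟩⟩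

/-- the ordinals `δ` below which there is a set of more than `lam` ordinals none of whose
subsets of size `lam` has a number below `δ` -/
def Setup.Bd (s : Setup lam η) : Set (W (Order.succ η)) :=
  {δ | ∃ H : Set (W (Order.succ η)), (∀ x ∈ H, x < δ) ∧ lam < #H ∧
    ∀ f : lam.ord.ToType → W (Order.succ η), Function.Injective f → (∀ l, f l ∈ H) → δ ≤ s.en f}

/-- a system of few sequences of length `lam` at each ordinal such that each set of more than
`lam` ordinals contains one of them, together with its ordinal -/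
def System (lam η : Cardinal.{0}) : Prop :=
  ∃ X : W (Order.succ η) → Set (lam.ord.ToType → W (Order.succ η)), (∀ β, #(X β) ≤ η) ∧
    (∀ β, ∀ f ∈ X β, Function.Injective f ∧ ∀ l, f l < β) ∧
    ∀ S : Set (W (Order.succ η)), lam < #S → ∃ β ∈ S, ∃ f ∈ X β, ∀ l, f l ∈ S

theorem exists_above (hlam : ℵ₀ ≤ lam) {δ : W (Order.succ η)} {K : Set (W (Order.succ η))}
    (hK : lam < #K) (hinit : ∀ γ < δ, #(K ∩ Iio γ : Set (W (Order.succ η))) ≤ lam) {J : Type}
    (hJ : #J ≤ lam) (b : J → W (Order.succ η)) (hb : ∀ j, b j < δ) :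
    ∃ β ∈ K, ∀ j, b j < β := by
  by_contra hcon
  push Not at hcon
  have hsub : K ⊆ ⋃ j, insert (b j) (K ∩ Iio (b j)) := by
    intro β hβ
    obtain ⟨j, hj⟩ := hcon β hβ
    refine mem_iUnion.2 ⟨j, ?_⟩
    rcases hj.lt_or_eq with h | h
    · exact Or.inr ⟨hβ, h⟩
    · exact Or.inl h
  have h1 := (mk_le_mk_of_subset hsub).trans (mk_iUnion_le _)
  have h2 : #J * (⨆ j, #(insert (b j) (K ∩ Iio (b j)) : Set (W (Order.succ η)))) ≤ lam := by
    refine (mul_le_mul' hJ (ciSup_le' fun j => ?_)).trans (mul_eq_self hlam).le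
    refine (mk_insert_le).trans ?_
    exact (add_le_add (hinit _ (hb j)) (one_le_aleph0.trans hlam)).trans (add_eq_self hlam).le
  exact absurd (h1.trans h2) (not_le.2 hK)

theorem exists_piece (hlam : ℵ₀ ≤ lam) (s : Setup lam η) {δ : W (Order.succ η)}
    {K : Set (W (Order.succ η))} (hK : lam < #K) (hKδ : ∀ x ∈ K, x < δ) :
    ∃ f : lam.ord.ToType → W (Order.succ η), Function.Injective f ∧ (∀ l, f l ∈ K) ∧
      s.en f < s.g δ := by
  have hm : ∃ m : s.M, lam < #{x : W (Order.succ η) | x ∈ K ∧ ∃ h : x < δ, s.p δ ⟨x, h⟩ = m} := by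
    by_contra hcon
    push Not at hcon
    have hsub : K ⊆ ⋃ m, {x : W (Order.succ η) | x ∈ K ∧ ∃ h : x < δ, s.p δ ⟨x, h⟩ = m} := by
      intro x hx
      exact mem_iUnion.2 ⟨s.p δ ⟨x, hKδ x hx⟩, hx, hKδ x hx, rfl⟩
    have h1 := (mk_le_mk_of_subset hsub).trans (mk_iUnion_le _)
    have h2 : #s.M * (⨆ m, #{x : W (Order.succ η) | x ∈ K ∧ ∃ h : x < δ, s.p δ ⟨x, h⟩ = m})
        ≤ lam := (mul_le_mul' s.hM (ciSup_le' hcon)).trans (mul_eq_self hlam).le
    exact absurd (h1.trans h2) (not_le.2 hK)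
  obtain ⟨m, hm⟩ := hm
  have h3 : #(lam.ord.ToType) ≤
      #{x : W (Order.succ η) | x ∈ K ∧ ∃ h : x < δ, s.p δ ⟨x, h⟩ = m} := by
    rw [mk_ord_toType]
    exact hm.le
  obtain ⟨f⟩ : Nonempty (lam.ord.ToType ↪
    {x : W (Order.succ η) | x ∈ K ∧ ∃ h : x < δ, s.p δ ⟨x, h⟩ = m}) := h3
  refine ⟨fun l => (f l).1, fun l l' h => f.injective (Subtype.ext h), fun l => (f l).2.1,
    s.hg δ m _ fun l => (f l).2.2⟩

theorem system_of_not_stationary (hlam : ℵ₀ ≤ lam) (hlt : lam < η) (s : Setup lam η)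
    (hns : ¬ Stationary s.Bd) : System lam η := by
  have hη : ℵ₀ ≤ η := hlam.trans hlt.le
  have hκ : (Order.succ η).IsRegular := isRegular_succ hη
  have h0 : ℵ₀ < Order.succ η := hη.trans_lt (Order.lt_succ η)
  unfold Stationary at hns
  push Not at hns
  obtain ⟨C, hCU, hCC, hC⟩ := hns
  let E : Set (W (Order.succ η)) := C ∩ Cl s.g
  have hEU : Unb E := unb_inter hκ h0 hCU hCC (unb_Cl hκ h0 _) (clo_Cl _)
  have hEC : Clo E := clo_inter hCC (clo_Cl _)
  choose nx hnx1 hnx2 using hEU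
  have hL : #(Option lam.ord.ToType) ≤ lam := by
    rw [mk_option, mk_ord_toType]
    exact (add_le_add le_rfl (one_le_aleph0.trans hlam)).trans (add_eq_self hlam).le
  refine ⟨fun β => {f | Function.Injective f ∧ (∀ l, f l < β) ∧ s.en f < nx β}, fun β => ?_,
    fun β f hf => ⟨hf.1, hf.2.1⟩, fun S hS => ?_⟩
  · refine le_trans (mk_le_of_injective (β := Iio (nx β)) (f := fun f => ⟨s.en f.1, f.2.2.2⟩) ?_)
      (mk_Iio_le _)
    intro f f' h
    exact Subtype.ext (s.en.injective (congrArg Subtype.val h))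
  · have hne : {δ : W (Order.succ η) | lam < #(S ∩ Iio δ : Set (W (Order.succ η)))}.Nonempty := by
      obtain ⟨S', hS'1, hS'2⟩ := le_mk_iff_exists_subset.1 (Order.succ_le_of_lt hS)
      have h3 : #S' < Order.succ η := by
        rw [hS'2]
        exact (Order.succ_le_of_lt hlt).trans_lt (Order.lt_succ η)
      obtain ⟨δ, hδ⟩ := exists_ub hκ h3 fun x : S' => x.1
      refine ⟨δ, ?_⟩
      have h4 : S' ⊆ S ∩ Iio δ := fun x hx => ⟨hS'1 hx, hδ ⟨x, hx⟩⟩
      refine lt_of_lt_of_le ?_ (mk_le_mk_of_subset h4)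
      rw [hS'2]
      exact Order.lt_succ lam
    let δ := WellFounded.min (wellFounded_lt (α := W (Order.succ η))) _ hne
    have hδ : lam < #(S ∩ Iio δ : Set (W (Order.succ η))) := WellFounded.min_mem _ _ hne
    have hinit : ∀ γ < δ, #((S ∩ Iio δ) ∩ Iio γ : Set (W (Order.succ η))) ≤ lam := by
      intro γ hγ
      by_contra hcon
      refine WellFounded.not_lt_min (wellFounded_lt (α := W (Order.succ η))) _
        (show γ ∈ {δ : W (Order.succ η) | lam < #(S ∩ Iio δ : Set (W (Order.succ η)))} from ?_) hγ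
      exact (not_le.1 hcon).trans_le (mk_le_mk_of_subset fun x hx => ⟨hx.1.1, hx.2⟩)
    by_cases hδE : δ ∈ E
    · have hδB : δ ∉ s.Bd := fun h => hC δ h hδE.1
      have hex : ∃ f : lam.ord.ToType → W (Order.succ η), Function.Injective f ∧
          (∀ l, f l ∈ S ∩ Iio δ) ∧ s.en f < δ := by
        by_contra hcon
        push Not at hcon
        exact hδB ⟨S ∩ Iio δ, fun x hx => hx.2, hδ, hcon⟩
      obtain ⟨f, hf1, hf2, hf3⟩ := hex
      obtain ⟨β, hβ1, hβ2⟩ := exists_above hlam hδ hinit hL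
        (fun o => o.elim (s.en f) f) (fun o => by
          cases o with
          | none => exact hf3
          | some l => exact (hf2 l).2)
      exact ⟨β, hβ1.1, f, ⟨hf1, fun l => hβ2 (some l), (hβ2 none).trans (hnx2 β)⟩,
        fun l => (hf2 l).1⟩
    · have hb : ∃ b, b < δ := by
        have : (S ∩ Iio δ : Set (W (Order.succ η))).Nonempty := by
          rw [← nonempty_coe_sort, ← mk_ne_zero_iff]
          exact (lt_of_le_of_lt (zero_le) hδ).ne'
        obtain ⟨b, hb⟩ := this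
        exact ⟨b, hb.2⟩
      have hgap : ∃ b < δ, ∀ c ∈ E, b < c → δ ≤ c := by
        by_contra hcon
        push Not at hcon
        exact hδE (hEC δ hb fun b hb => by
          obtain ⟨c, h5, h6, h7⟩ := hcon b hb
          exact ⟨c, h5, h6, h7⟩)
      obtain ⟨b, hb, hgap⟩ := hgap
      obtain ⟨f, hf1, hf2, hf3⟩ := exists_piece hlam s hδ (fun x hx => hx.2)
      obtain ⟨β, hβ1, hβ2⟩ := exists_above hlam hδ hinit hL
        (fun o => o.elim b f) (fun o => by
          cases o with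
          | none => exact hb
          | some l => exact (hf2 l).2)
      refine ⟨β, hβ1.1, f, ⟨hf1, fun l => hβ2 (some l), ?_⟩, fun l => (hf2 l).1⟩
      have h8 : δ ≤ nx β := hgap (nx β) (hnx1 β) ((hβ2 none).trans (hnx2 β))
      have h9 : δ < nx β := lt_of_le_of_ne h8 fun h => hδE (h ▸ hnx1 β)
      exact hf3.trans ((hnx1 β).2 δ h9)

theorem pick (hη : ℵ₀ ≤ η) {Ω J : Type} {B : Set Ω} (hB : Order.succ η ≤ #B) (hJ : #J ≤ η)
    (D : J → Set Ω) (hD : ∀ j, #(B ∩ D j : Set Ω) ≤ η) : ∃ y ∈ B, ∀ j, y ∉ D j := by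
  by_contra hcon
  push Not at hcon
  have hsub : B ⊆ ⋃ j, B ∩ D j := by
    intro y hy
    obtain ⟨j, hj⟩ := hcon y hy
    exact mem_iUnion.2 ⟨j, hy, hj⟩
  have h1 := (mk_le_mk_of_subset hsub).trans (mk_iUnion_le _)
  have h2 : #J * (⨆ j, #(B ∩ D j : Set Ω)) ≤ η :=
    (mul_le_mul' hJ (ciSup_le' hD)).trans (mul_eq_self hη).le
  exact absurd ((hB.trans h1).trans h2) (not_le.2 (Order.lt_succ η))

/-- a system gives transversals -/
theorem transversal_of_system (hlam : ℵ₀ ≤ lam) (hlt : lam < η) (hsys : System lam η)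
    {Ω : Type} (A : W (Order.succ η) → Set Ω) (hA : ∀ α, Order.succ η ≤ #(A α))
    (hAA : ∀ α β, α ≠ β → #(A α ∩ A β : Set Ω) < lam) :
    ∃ T : Set Ω, ∀ α, (T ∩ A α).Nonempty ∧ #(T ∩ A α : Set Ω) ≤ lam := by
  classical
  have hη : ℵ₀ ≤ η := hlam.trans hlt.le
  obtain ⟨X, hX1, hX2, hX3⟩ := hsys
  rcases isEmpty_or_nonempty (W (Order.succ η)) with hW | ⟨⟨w0⟩⟩
  · exact ⟨∅, fun α => isEmptyElim α⟩
  have hΩ : Nonempty Ω := by
    have : (A w0).Nonempty := by
      rw [← nonempty_coe_sort, ← mk_ne_zero_iff]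
      exact (lt_of_lt_of_le (lt_of_le_of_lt (zero_le) (Order.lt_succ η)) (hA w0)).ne'
    exact ⟨this.some⟩
  let P : (β : W (Order.succ η)) → (∀ γ, γ < β → Ω) → Ω → Prop := fun β t y =>
    y ∈ A β ∧ (∀ α < β, y ∉ A α) ∧
      ∀ f ∈ X β, ∀ α ≠ β, (∀ l (h : f l < β), t (f l) h ∈ A α) → y ∉ A α
  let t : W (Order.succ η) → Ω := WellFounded.fix (wellFounded_lt (α := W (Order.succ η)))
    (C := fun _ => Ω) fun β t' => if h : ∃ y, P β t' y then h.choose else hΩ.some
  have ht : ∀ β, t β = if h : ∃ y, P β (fun γ _ => t γ) y then h.choose else hΩ.some :=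
    fun β => WellFounded.fix_eq _ _ _
  have hP : ∀ β, P β (fun γ _ => t γ) (t β) := by
    intro β
    induction β using WellFoundedLT.induction with
    | _ β ih =>
    have hinj : ∀ γ γ', γ < β → γ' < β → t γ = t γ' → γ = γ' := by
      intro γ γ' h h' heq
      rcases lt_trichotomy γ γ' with h1 | h1 | h1
      · exact absurd (heq ▸ (ih γ h).1) ((ih γ' h').2.1 γ h1)
      · exact h1
      · exact absurd (heq ▸ (ih γ' h').1) ((ih γ h).2.1 γ' h1)
    have huniq : ∀ f ∈ X β, ∀ α α', (∀ l, f l < β → t (f l) ∈ A α) →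
        (∀ l, f l < β → t (f l) ∈ A α') → α = α' := by
      intro f hf α α' h h'
      by_contra hne
      have h2 : #(lam.ord.ToType) ≤ #(A α ∩ A α' : Set Ω) :=
        mk_le_of_injective (f := fun l => ⟨t (f l), h l ((hX2 β f hf).2 l),
          h' l ((hX2 β f hf).2 l)⟩) fun l l' heq =>
            (hX2 β f hf).1 (hinj _ _ ((hX2 β f hf).2 l) ((hX2 β f hf).2 l')
              (congrArg Subtype.val heq))
      rw [mk_ord_toType] at h2
      exact absurd (hAA α α' hne) (not_lt.2 h2)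
    have hex : ∃ y, P β (fun γ _ => t γ) y := by
      let D : Iio β ⊕ X β → Set Ω := fun j => j.elim (fun α => A α.1)
        fun f => if h : ∃ α, α ≠ β ∧ ∀ l, f.1 l < β → t (f.1 l) ∈ A α then A h.choose else ∅
      have hJ : #(Iio β ⊕ X β) ≤ η := by
        rw [mk_sum, lift_id, lift_id]
        exact (add_le_add (mk_Iio_le β) (hX1 β)).trans (add_eq_self hη).le
      have hD : ∀ j, #(A β ∩ D j : Set Ω) ≤ η := by
        rintro (α | f)
        · exact ((hAA β α.1 (ne_of_gt α.2)).le).trans hlt.le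
        · by_cases h : ∃ α, α ≠ β ∧ ∀ l, f.1 l < β → t (f.1 l) ∈ A α
          · have : D (Sum.inr f) = A h.choose := dif_pos h
            rw [this]
            exact ((hAA β _ h.choose_spec.1.symm).le).trans hlt.le
          · have : D (Sum.inr f) = ∅ := dif_neg h
            rw [this, inter_empty, mk_eq_zero]
            exact zero_le
      obtain ⟨y, hy1, hy2⟩ := pick hη (hA β) hJ D hD
      refine ⟨y, hy1, fun α hα => hy2 (Sum.inl ⟨α, hα⟩), fun f hf α hα hfα => ?_⟩
      have h : ∃ α, α ≠ β ∧ ∀ l, f l < β → t (f l) ∈ A α := ⟨α, hα, hfα⟩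
      have h3 : D (Sum.inr ⟨f, hf⟩) = A h.choose := dif_pos h
      have h4 := hy2 (Sum.inr ⟨f, hf⟩)
      rw [h3, huniq f hf _ α h.choose_spec.2 hfα] at h4
      exact h4
    rw [ht β, dif_pos hex]
    exact hex.choose_spec
  refine ⟨range t, fun α => ⟨⟨t α, mem_range_self α, (hP α).1⟩, ?_⟩⟩
  have h5 : #{ε | t ε ∈ A α} ≤ lam := by
    by_contra hcon
    have h6 : lam < #({ε | t ε ∈ A α} \ {α} : Set (W (Order.succ η))) := by
      by_contra hcon2
      apply hcon
      have h7 : {ε | t ε ∈ A α} ⊆ insert α ({ε | t ε ∈ A α} \ {α}) := by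
        intro ε hε
        by_cases h : ε = α
        · exact Or.inl h
        · exact Or.inr ⟨hε, h⟩
      refine (mk_le_mk_of_subset h7).trans ((mk_insert_le).trans ?_)
      exact (add_le_add (not_lt.1 hcon2) (one_le_aleph0.trans hlam)).trans (add_eq_self hlam).le
    obtain ⟨β, hβ, f, hf1, hf2⟩ := hX3 _ h6
    exact (hP β).2.2 f hf1 α (fun h => hβ.2 h.symm) (fun l _ => (hf2 l).1) hβ.1
  have h8 : (range t ∩ A α : Set Ω) ⊆ t '' {ε | t ε ∈ A α} := by
    rintro _ ⟨⟨ε, rfl⟩, h⟩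
    exact ⟨ε, h, rfl⟩
  exact (mk_le_mk_of_subset h8).trans ((mk_image_le).trans h5)

end Pool.Agent.K9h78.TR
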