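import Mathlib
import Pool.Agent.K9h78.TR.Defs
import Pool.Agent.K9h78.TR.Sys

set_option autoImplicit false

/-!
# The characterization
-/

namespace Pool.Agent.K9h78.TR

open Cardinal Set

variable {lam η : Cardinal.{0}}

theorem succ_lt (hlt : lam < η) (hsl : ∀ x < η, (2 : Cardinal.{0}) ^ x < η) :
    Order.succ lam < η :=
  (Order.succ_le_of_lt (cantor lam)).trans_lt (hsl lam hlt)

/-- from the bad ordinals to a stationary family -/
theorem stat_of_bd (hlam : ℵ₀ ≤ lam) (hlt : lam < η) (hsl : ∀ x < η, (2 : Cardinal.{0}) ^ x < η)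
    (s : Setup lam η) (hs : Stationary s.Bd) : StatFamily (Order.succ η) lam := by
  classical
  have hη : ℵ₀ ≤ η := hlam.trans hlt.le
  have hκ : (Order.succ η).IsRegular := isRegular_succ hη
  have h0 : ℵ₀ < Order.succ η := hη.trans_lt (Order.lt_succ η)
  have hex : ∀ δ : W (Order.succ η), ∃ H : Set (W (Order.succ η)), #H ≤ Order.succ lam ∧
      (δ ∈ s.Bd → (∀ x ∈ H, x < δ) ∧ lam < #H ∧
      ∀ f : lam.ord.ToType → W (Order.succ η), Function.Injective f → (∀ l, f l ∈ H) →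
        δ ≤ s.en f) := by
    intro δ
    by_cases hδ : δ ∈ s.Bd
    · obtain ⟨H, a1, a2, a3⟩ := hδ
      obtain ⟨H', h1, h2⟩ := le_mk_iff_exists_subset.1 (Order.succ_le_of_lt a2)
      refine ⟨H', h2.le, fun _ => ⟨fun x hx => a1 x (h1 hx), ?_, fun f hf hf' =>
        a3 f hf fun l => h1 (hf' l)⟩⟩
      rw [h2]
      exact Order.lt_succ lam
    · exact ⟨∅, by simp, fun h => absurd h hδ⟩
  choose H hH1 hH2 using hex
  have hub : ∀ γ : W (Order.succ η), ∃ u, ∀ f : lam.ord.ToType → H γ,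
      s.en (fun l => (f l).1) < u := by
    intro γ
    refine exists_ub hκ ?_ _
    rw [← power_def, mk_ord_toType]
    refine lt_of_le_of_lt ?_ (Order.lt_succ η)
    refine (power_le_power_right ((hH1 γ).trans (cantor _).le)).trans ?_
    rw [← power_mul]
    exact (hsl _ (mul_lt_of_lt hη (succ_lt hlt hsl) hlt)).le
  choose g1 hg1 using hub
  have hlt' : ∀ γ ∈ s.Bd ∩ Cl g1, ∀ δ ∈ s.Bd ∩ Cl g1, γ < δ →
      #(H γ ∩ H δ : Set (W (Order.succ η))) < lam := by
    intro γ hγ δ hδ hlt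
    by_contra hcon
    have h3 : #(lam.ord.ToType) ≤ #(H γ ∩ H δ : Set (W (Order.succ η))) := by
      rw [mk_ord_toType]
      exact not_lt.1 hcon
    obtain ⟨f⟩ : Nonempty (lam.ord.ToType ↪ (H γ ∩ H δ : Set (W (Order.succ η)))) := h3
    have h4 := (hH2 δ hδ.1).2.2 (fun l => (f l).1)
      (fun l l' h => f.injective (Subtype.ext h)) fun l => (f l).2.2
    have h5 := hg1 γ fun l => ⟨(f l).1, (f l).2.1⟩
    exact absurd (h5.trans (hδ.2 γ hlt)) (not_lt.2 h4)
  refine ⟨s.Bd ∩ Cl g1, H, hs.inter hκ h0 (unb_Cl hκ h0 _) (clo_Cl _),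
    fun δ hδ => (hH2 δ hδ.1).1, fun δ hδ => (hH2 δ hδ.1).2.1, fun γ hγ δ hδ hne => ?_⟩
  rcases lt_or_gt_of_ne hne with h | h
  · exact hlt' γ hγ δ hδ h
  · rw [inter_comm]
    exact hlt' δ hδ γ hγ h

theorem stat_of_badFamily (hlam : ℵ₀ ≤ lam) (hlt : lam < η)
    (hsl : ∀ x < η, (2 : Cardinal.{0}) ^ x < η) (s : Setup lam η)
    (h : BadFamily (Order.succ η) lam) : StatFamily (Order.succ η) lam := by
  by_contra hcon
  have hns : ¬ Stationary s.Bd := fun hs => hcon (stat_of_bd hlam hlt hsl s hs)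
  obtain ⟨Ω, 𝒜, h1, h2, h3, h4⟩ := h
  apply h4
  obtain ⟨e⟩ : Nonempty (W (Order.succ η) ≃ 𝒜) :=
    Cardinal.eq.1 ((mk_ord_toType (Order.succ η)).trans h1.symm)
  obtain ⟨T, hT⟩ := transversal_of_system hlam hlt (system_of_not_stationary hlam hlt s hns)
    (fun α => (e α).1) (fun α => (h2 _ (e α).2).ge) (fun α β hne => by
      have := lt_degree (e α).2 (e β).2 fun h => hne (e.injective (Subtype.ext h))
      rwa [h3] at this)
  refine ⟨T, fun A hA => ?_⟩
  have h5 := hT (e.symm ⟨A, hA⟩)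
  rw [e.apply_symm_apply] at h5
  exact ⟨h5.1, Order.lt_succ_iff.2 h5.2⟩

/-- no subset of size `lam` of a set of a stationary family has a small number -/
theorem no_num (hlam : ℵ₀ ≤ lam) (hlt : lam < η) (s : Setup lam η)
    {S : Set (W (Order.succ η))} {H : W (Order.succ η) → Set (W (Order.succ η))}
    (hpair : ∀ γ ∈ S, ∀ δ ∈ S, γ ≠ δ → #(H γ ∩ H δ : Set (W (Order.succ η))) < lam) :
    ∃ C : Set (W (Order.succ η)), Unb C ∧ Clo C ∧ ∀ δ ∈ S, δ ∈ C →
      ∀ f : lam.ord.ToType → W (Order.succ η), Function.Injective f → (∀ l, f l ∈ H δ) →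
        δ ≤ s.en f := by
  classical
  have hη : ℵ₀ ≤ η := hlam.trans hlt.le
  have hκ : (Order.succ η).IsRegular := isRegular_succ hη
  have h0 : ℵ₀ < Order.succ η := hη.trans_lt (Order.lt_succ η)
  let q : W (Order.succ η) → W (Order.succ η) := fun ν =>
    if h : ∃ δ : W (Order.succ η), δ ∈ S ∧ ∃ f : lam.ord.ToType → W (Order.succ η),
      s.en f = ν ∧ Function.Injective f ∧ ∀ l, f l ∈ H δ then h.choose else ν
  refine ⟨Cl q, unb_Cl hκ h0 _, clo_Cl _, fun δ hδS hδ f hf1 hf2 => ?_⟩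
  by_contra hcon
  have h1 : s.en f < δ := not_le.1 hcon
  have h2 := hδ _ h1
  have h3 : ∃ δ' : W (Order.succ η), δ' ∈ S ∧ ∃ f' : lam.ord.ToType → W (Order.succ η),
      s.en f' = s.en f ∧ Function.Injective f' ∧ ∀ l, f' l ∈ H δ' :=
    ⟨δ, hδS, f, rfl, hf1, hf2⟩
  have h4 : q (s.en f) = h3.choose := dif_pos h3
  obtain ⟨h5, f', h6, h7, h8⟩ := h3.choose_spec
  obtain rfl := s.en.injective h6
  have h9 : h3.choose = δ := by
    by_contra hne
    have h10 : #(lam.ord.ToType) ≤ #(H h3.choose ∩ H δ : Set (W (Order.succ η))) :=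
      mk_le_of_injective (f := fun l => ⟨f' l, h8 l, hf2 l⟩)
        fun l l' h => h7 (congrArg Subtype.val h)
    rw [mk_ord_toType] at h10
    exact absurd (hpair _ h5 _ hδS hne) (not_lt.2 h10)
  rw [h4, h9] at h2
  exact lt_irrefl _ h2

/-- small initial segments of the sets of a stationary family -/
theorem small_init (hlam : ℵ₀ ≤ lam) (hlt : lam < η) (s : Setup lam η)
    {S : Set (W (Order.succ η))} {H : W (Order.succ η) → Set (W (Order.succ η))}
    (hpair : ∀ γ ∈ S, ∀ δ ∈ S, γ ≠ δ → #(H γ ∩ H δ : Set (W (Order.succ η))) < lam) :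
    ∃ C : Set (W (Order.succ η)), Unb C ∧ Clo C ∧ ∀ δ ∈ S, δ ∈ C → ∀ γ < δ,
      #(H δ ∩ Iio γ : Set (W (Order.succ η))) ≤ lam := by
  have hη : ℵ₀ ≤ η := hlam.trans hlt.le
  have hκ : (Order.succ η).IsRegular := isRegular_succ hη
  have h0 : ℵ₀ < Order.succ η := hη.trans_lt (Order.lt_succ η)
  obtain ⟨C, hCU, hCC, hC⟩ := no_num hlam hlt s hpair
  refine ⟨Cl s.g ∩ C, unb_inter hκ h0 (unb_Cl hκ h0 _) (clo_Cl _) hCU hCC,
    clo_inter (clo_Cl _) hCC, fun δ hδS hδ γ hγ => ?_⟩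
  by_contra hcon
  obtain ⟨f, hf1, hf2, hf3⟩ := exists_piece hlam s (δ := γ) (not_le.1 hcon) (fun x hx => hx.2)
  exact absurd (hf3.trans (hδ.1 γ hγ)) (not_lt.2 (hC δ hδS hδ.2 f hf1 fun l => (hf2 l).1))

end Pool.Agent.K9h78.TR
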