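import Mathlib
import Pool.Agent.K9h78.TR.Equiv

set_option autoImplicit false

/-!
# Approachability
-/

namespace Pool.Agent.K9h78.TR

open Cardinal Set

/-- The approachability property of the regular cardinal `κ` (usually denoted by `κ ∈ I[κ]`, or
by `AP_η` if `κ = η⁺`): there are sets `a ν ⊆ κ` (`ν < κ`) such that each `δ` in some closed
unbounded set has an unbounded subset `c` of order type `cof δ` (the proper initial segments of
`c` have fewer than `cof δ` elements), all proper initial segments of which are among the `a ν`,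
`ν < δ`. -/
def AP (κ : Cardinal.{0}) : Prop :=
  ∃ (a : W κ → Set (W κ)) (C : Set (W κ)), Unb C ∧ Clo C ∧ ∀ δ ∈ C, ∃ c : Set (W κ),
    (∀ x ∈ c, x < δ) ∧ (∀ b < δ, ∃ x ∈ c, b ≤ x) ∧
    (∀ b < δ, #(c ∩ Iio b : Set (W κ)) < Order.cof (Iio δ)) ∧ ∀ b < δ, ∃ ν < δ, c ∩ Iio b = a ν

variable {lam η : Cardinal.{0}}

theorem not_stat_of_ap (hlam : ℵ₀ ≤ lam) (hlt : lam < η)
    (hsl : ∀ x < η, (2 : Cardinal.{0}) ^ x < η) (s : Setup lam η) (hap : AP (Order.succ η)) :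
    ¬ StatFamily (Order.succ η) lam := by
  classical
  rintro ⟨S, H, hS, hHδ, hHl, hpair⟩
  have hη : ℵ₀ ≤ η := hlam.trans hlt.le
  have hκ : (Order.succ η).IsRegular := isRegular_succ hη
  have h0 : ℵ₀ < Order.succ η := hη.trans_lt (Order.lt_succ η)
  obtain ⟨C1, hC1U, hC1C, hC1⟩ := small_init hlam hlt s hpair
  obtain ⟨C2, hC2U, hC2C, hC2⟩ := no_num hlam hlt s hpair
  obtain ⟨fl, hfl⟩ := cl_sub_lm (κ := Order.succ η) hκ
  obtain ⟨a, C3, hC3U, hC3C, hC3⟩ := hap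
  -- closure
  let bb : W (Order.succ η) → s.M → Set (W (Order.succ η)) := fun ν m =>
    {x | ∃ ε ∈ a ν, ∃ h : x < ε, s.p ε ⟨x, h⟩ = m}
  have hbb : ∀ ν m, #(a ν) ≤ lam → #(bb ν m) < η := by
    intro ν m hν
    have hsub : bb ν m ⊆ ⋃ ε : a ν, {x | ∃ h : x < ε.1, s.p ε.1 ⟨x, h⟩ = m} := by
      rintro x ⟨ε, hε, h⟩
      exact mem_iUnion.2 ⟨⟨ε, hε⟩, h⟩
    refine ((mk_le_mk_of_subset hsub).trans (mk_iUnion_le _)).trans_lt ?_
    refine lt_of_le_of_lt (mul_le_mul' hν (ciSup_le' (a := s.θ m) fun ε => ?_))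
      (mul_lt_of_lt hη hlt (s.hθ m))
    refine le_trans (mk_le_of_injective (β := {x // s.p ε.1 x = m})
      (f := fun x => ⟨⟨x.1, x.2.choose⟩, x.2.choose_spec⟩) ?_) (s.hp ε.1 m)
    intro x y h
    exact Subtype.ext (congrArg (fun z => z.1.1) h)
  have hub : ∀ ν : W (Order.succ η), ∃ u, #(a ν) ≤ lam → ∀ m, ∀ f : lam.ord.ToType → bb ν m,
      s.en (fun l => (f l).1) < u := by
    intro ν
    by_cases hν : #(a ν) ≤ lam
    · obtain ⟨u, hu⟩ := exists_ub hκ (M := Σ m : s.M, (lam.ord.ToType → bb ν m)) (by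
        rw [mk_sigma]
        refine ((sum_le_mk_mul_iSup _).trans ?_).trans_lt (Order.lt_succ η)
        refine (mul_le_mul' (s.hM.trans hlt.le) (ciSup_le' (a := η) fun m => ?_)).trans
          (mul_eq_self hη).le
        rw [← power_def, mk_ord_toType]
        refine (power_le_power_right (cantor _).le).trans ?_
        rw [← power_mul]
        exact (hsl _ (mul_lt_of_lt hη (hbb ν m hν) hlt)).le)
        fun q => s.en (fun l => (q.2 l).1)
      exact ⟨u, fun _ m f => hu ⟨m, f⟩⟩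
    · exact ⟨ν, fun h => absurd h hν⟩
  choose g2 hg2 using hub
  obtain ⟨δ, hδS, hδ1, hδ2, hδ3, hδ4, hδ5⟩ := hS (C1 ∩ (C2 ∩ (C3 ∩ (Cl g2 ∩ Cl fl))))
    (unb_inter hκ h0 hC1U hC1C (unb_inter hκ h0 hC2U hC2C (unb_inter hκ h0 hC3U hC3C
      (unb_inter hκ h0 (unb_Cl hκ h0 _) (clo_Cl _) (unb_Cl hκ h0 _) (clo_Cl _))
      (clo_inter (clo_Cl _) (clo_Cl _))) (clo_inter hC3C (clo_inter (clo_Cl _) (clo_Cl _))))
      (clo_inter hC2C (clo_inter hC3C (clo_inter (clo_Cl _) (clo_Cl _)))))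
    (clo_inter hC1C (clo_inter hC2C (clo_inter hC3C (clo_inter (clo_Cl _) (clo_Cl _)))))
  obtain ⟨c, hc1, hc2, hc3, hc4⟩ := hC3 δ hδ3
  have hinit := hC1 δ hδS hδ1
  -- the cofinality of `δ`
  have hcof : Order.cof (Iio δ) ≤ Order.succ lam := by
    obtain ⟨H', h1, h2⟩ := le_mk_iff_exists_subset.1 (Order.succ_le_of_lt (hHl δ hδS))
    have h3 : IsCofinal {x : Iio δ | x.1 ∈ H'} := by
      intro γ
      by_contra hcon
      push Not at hcon
      have h4 : H' ⊆ H δ ∩ Iio γ.1 := fun x hx =>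
        ⟨h1 hx, not_le.1 fun hle => absurd (hcon ⟨x, hHδ δ hδS x (h1 hx)⟩ hx) (not_lt.2 hle)⟩
      have h5 := (mk_le_mk_of_subset h4).trans (hinit γ.1 γ.2)
      rw [h2] at h5
      exact absurd h5 (not_le.2 (Order.lt_succ lam))
    refine (Order.cof_le h3).trans ?_
    rw [← h2]
    refine mk_le_of_injective (α := {x : Iio δ | x.1 ∈ H'}) (β := H')
      (f := fun x => ⟨x.1.1, x.2⟩) fun x y h => ?_
    have h6 : x.1.1 = y.1.1 := congrArg (fun z : H' => z.1) h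
    exact Subtype.ext (Subtype.ext h6)
  have hpiece : ∃ m : s.M, lam < #{x : W (Order.succ η) | x ∈ H δ ∧
      ∃ ε ∈ c, ∃ h : x < ε, s.p ε ⟨x, h⟩ = m} := by
    by_contra hcon
    push Not at hcon
    have hsub : H δ ⊆ ⋃ m, {x : W (Order.succ η) | x ∈ H δ ∧
        ∃ ε ∈ c, ∃ h : x < ε, s.p ε ⟨x, h⟩ = m} := by
      intro x hx
      obtain ⟨b, hb1, hb2⟩ := hfl hδ5 x (hHδ δ hδS x hx)
      obtain ⟨ε, hε1, hε2⟩ := hc2 b hb2
      exact mem_iUnion.2 ⟨s.p ε ⟨x, hb1.trans_le hε2⟩, hx, ε, hε1, hb1.trans_le hε2, rfl⟩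
    have h1 := (mk_le_mk_of_subset hsub).trans (mk_iUnion_le _)
    have h2 : #s.M * (⨆ m, #{x : W (Order.succ η) | x ∈ H δ ∧
        ∃ ε ∈ c, ∃ h : x < ε, s.p ε ⟨x, h⟩ = m}) ≤ lam :=
      (mul_le_mul' s.hM (ciSup_le' hcon)).trans (mul_eq_self hlam).le
    exact absurd (h1.trans h2) (not_le.2 (hHl δ hδS))
  obtain ⟨m, hm⟩ := hpiece
  have h3 : #(lam.ord.ToType) ≤ #{x : W (Order.succ η) | x ∈ H δ ∧
      ∃ ε ∈ c, ∃ h : x < ε, s.p ε ⟨x, h⟩ = m} := by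
    rw [mk_ord_toType]
    exact hm.le
  obtain ⟨f⟩ : Nonempty (lam.ord.ToType ↪ {x : W (Order.succ η) | x ∈ H δ ∧
      ∃ ε ∈ c, ∃ h : x < ε, s.p ε ⟨x, h⟩ = m}) := h3
  choose ε hε1 hε2 hε3 using fun l => (f l).2.2
  obtain ⟨β, hβ1, hβ2⟩ := exists_above hlam (hHl δ hδS) hinit (mk_ord_toType lam).le ε
    fun l => hc1 _ (hε1 l)
  have hβδ := hHδ δ hδS β hβ1
  obtain ⟨ν, hν1, hν2⟩ := hc4 β hβδ
  have hν3 : #(a ν) ≤ lam := by
    rw [← hν2]
    exact Order.lt_succ_iff.1 ((hc3 β hβδ).trans_le hcof)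
  have h5 := hg2 ν hν3 m fun l => ⟨(f l).1, ε l, by
    rw [← hν2]
    exact ⟨hε1 l, hβ2 l⟩, hε2 l, hε3 l⟩
  have h6 := hC2 δ hδS hδ2 (fun l => (f l).1) (fun l l' h => f.injective (Subtype.ext h))
    fun l => (f l).2.1
  exact absurd (h5.trans (hδ4 ν hν1)) (not_lt.2 h6)

end Pool.Agent.K9h78.TR
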