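import Mathlib
import Pool.Agent.K9h78.TR.Equiv

set_option autoImplicit false

/-!
# The family without transversal
-/

namespace Pool.Agent.K9h78.TR

open Cardinal Set

variable {lam η : Cardinal.{0}}

/-- the ground set -/
abbrev Gr (lam η : Cardinal.{0}) : Type :=
  (Bool × W (Order.succ η) × W (Order.succ η)) ⊕
    (lam.ord.ToType × ((Bool × W (Order.succ η)) ⊕ lam.ord.ToType))

/-- the index set -/
abbrev Ix (lam : Cardinal.{0}) {η : Cardinal.{0}} (S : Set (W (Order.succ η))) : Type :=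
  W (Order.succ η) ⊕ S ⊕ (lam.ord.ToType × Bool)

/-- columns -/
def colm (lam : Cardinal.{0}) (γ : W (Order.succ η)) : Set (Gr lam η) :=
  {z | ∃ y, z = Sum.inl (false, γ, y)}

/-- graph of a function on `H`, together with a private column -/
def grph (lam : Cardinal.{0}) (δ : W (Order.succ η)) (H : Set (W (Order.succ η)))
    (t : W (Order.succ η) → W (Order.succ η)) : Set (Gr lam η) :=
  {z | (∃ y, z = Sum.inl (true, δ, y)) ∨ ∃ ε ∈ H, z = Sum.inl (false, ε, t ε)}

/-- the sets which make the degree of disjunction large -/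
def extr (η : Cardinal.{0}) (x : lam.ord.ToType) (b : Bool) : Set (Gr lam η) :=
  {z | (∃ y, z = Sum.inr (x, Sum.inl (b, y))) ∨ ∃ u < x, z = Sum.inr (x, Sum.inr u)}

theorem exists_seg (δ : Cardinal.{0}) (h : δ < lam) : ∃ x : lam.ord.ToType, #(Iio x) = δ := by
  have h1 : δ.ord < Ordinal.type ((· < ·) : lam.ord.ToType → lam.ord.ToType → Prop) := by
    rw [Ordinal.type_toType]
    exact ord_lt_ord.2 h
  refine ⟨Ordinal.enum (· < ·) ⟨δ.ord, h1⟩, ?_⟩
  have h2 := Ordinal.card_typein (r := ((· < ·) : lam.ord.ToType → lam.ord.ToType → Prop))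
    (Ordinal.enum (· < ·) ⟨δ.ord, h1⟩)
  rw [Ordinal.typein_enum, card_ord] at h2
  exact h2.symm

theorem badFamily_of_stat (hlam : ℵ₀ ≤ lam) (hlt : lam < η)
    (hG : (2 : Cardinal.{0}) ^ η = Order.succ η) {M : Type}
    (hM : #M ≤ lam) (part : ∀ E : Type, #E ≤ η → ∃ p : E → M, ∀ m, #{x // p x = m} < η)
    (s : Setup lam η) (h : StatFamily (Order.succ η) lam) : BadFamily (Order.succ η) lam := by
  classical
  have hη : ℵ₀ ≤ η := hlam.trans hlt.le
  have hκ : (Order.succ η).IsRegular := isRegular_succ hη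
  have h0 : ℵ₀ < Order.succ η := hη.trans_lt (Order.lt_succ η)
  have hlam1 : (1 : Cardinal.{0}) < lam := one_lt_aleph0.trans_le hlam
  obtain ⟨S0, H, hS0, hHδ, hHl, hpair⟩ := h
  obtain ⟨C, hCU, hCC, hC⟩ := small_init hlam hlt s hpair
  obtain ⟨fl, hfl⟩ := cl_sub_lm (κ := Order.succ η) hκ
  let S : Set (W (Order.succ η)) := S0 ∩ (C ∩ Cl fl)
  have hS : Stationary S := hS0.inter hκ h0 (unb_inter hκ h0 hCU hCC (unb_Cl hκ h0 _) (clo_Cl _))
    (clo_inter hCC (clo_Cl _))
  obtain ⟨G, hG'⟩ := diamond hη hG (hM.trans hlt.le) part hS (fun δ hδ => hfl hδ.2.2)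
    (fun δ hδ b hb => by
      obtain ⟨β, h1, h2⟩ := exists_above hlam (hHl δ hδ.1) (hC δ hδ.1 hδ.2.1) hM b hb
      exact ⟨β, hHδ δ hδ.1 β h1, fun m => (h2 m).le⟩)
  let F : Ix lam S → Set (Gr lam η) := fun i => match i with
    | Sum.inl γ => colm lam γ
    | Sum.inr (Sum.inl δ) => grph lam δ.1 (H δ.1) (G δ.1)
    | Sum.inr (Sum.inr (x, b)) => extr η x b
  have hne : Nonempty (W (Order.succ η)) := by
    rw [← mk_ne_zero_iff, mk_ord_toType]
    exact (lt_of_le_of_lt (zero_le) (Order.lt_succ η)).ne'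
  have hWc : #(W (Order.succ η)) = Order.succ η := mk_ord_toType _
  have hLc : #(lam.ord.ToType) ≤ Order.succ η := by
    rw [mk_ord_toType]
    exact hlt.le.trans (Order.le_succ η)
  have hBc : #Bool ≤ Order.succ η := (mk_le_aleph0).trans h0.le
  have hsum : ∀ A B : Type, #A ≤ Order.succ η → #B ≤ Order.succ η → #(A ⊕ B) ≤ Order.succ η := by
    intro A B hA hB
    rw [mk_sum, lift_id, lift_id]
    exact (add_le_add hA hB).trans (add_eq_self h0.le).le
  have hGr : #(Gr lam η) ≤ Order.succ η :=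
    hsum _ _ (mk_prod_le h0.le hBc (mk_prod_le h0.le hWc.le hWc.le))
      (mk_prod_le h0.le hLc (hsum _ _ (mk_prod_le h0.le hBc hWc.le) hLc))
  have hIx : #(Ix lam S) ≤ Order.succ η :=
    hsum _ _ hWc.le (hsum _ _ ((mk_set_le _).trans hWc.le) (mk_prod_le h0.le hLc hBc))
  have hsize : ∀ i, #(F i) = Order.succ η := by
    intro i
    refine le_antisymm ((mk_set_le _).trans hGr) ?_
    rw [← hWc]
    match i with
    | Sum.inl γ =>
      exact mk_le_of_injective (f := fun y => (⟨Sum.inl (false, γ, y), y, rfl⟩ : colm lam γ))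
        fun y y' h => by simpa using congrArg Subtype.val h
    | Sum.inr (Sum.inl δ) =>
      exact mk_le_of_injective (f := fun y => (⟨Sum.inl (true, δ.1, y), Or.inl ⟨y, rfl⟩⟩ :
        grph lam δ.1 (H δ.1) (G δ.1))) fun y y' h => by simpa using congrArg Subtype.val h
    | Sum.inr (Sum.inr (x, b)) =>
      exact mk_le_of_injective (f := fun y => (⟨Sum.inr (x, Sum.inl (b, y)), Or.inl ⟨y, rfl⟩⟩ :
        extr η x b)) fun y y' h => by simpa using congrArg Subtype.val h
  -- pairwise intersections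
  have hint : ∀ i j, i ≠ j → #(F i ∩ F j : Set (Gr lam η)) < lam := by
    have hempty : ∀ A : Set (Gr lam η), A = ∅ → #A < lam := by
      rintro _ rfl
      rw [mk_eq_zero]
      exact lt_of_le_of_lt (zero_le) hlam1
    have hcg : ∀ γ (δ : S), #(F (Sum.inl γ) ∩ F (Sum.inr (Sum.inl δ)) : Set (Gr lam η)) < lam := by
      intro γ δ
      refine lt_of_le_of_lt ?_ hlam1
      refine (mk_le_mk_of_subset (t := {Sum.inl (false, γ, G δ.1 γ)}) ?_).trans
        (mk_singleton _).le
      rintro z ⟨⟨y, rfl⟩, ⟨y', hy'⟩ | ⟨ε, -, hε⟩⟩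
      · simp at hy'
      · simp only [Sum.inl.injEq, Prod.mk.injEq, true_and] at hε
        obtain ⟨rfl, rfl⟩ := hε
        rfl
    have hce : ∀ γ x b, #(F (Sum.inl γ) ∩ F (Sum.inr (Sum.inr (x, b))) : Set (Gr lam η)) < lam := by
      intro γ x b
      apply hempty
      ext z
      simp only [mem_inter_iff, mem_empty_iff_false, iff_false]
      rintro ⟨⟨y, rfl⟩, ⟨y', hy'⟩ | ⟨u, -, hu⟩⟩
      · simp at hy'
      · simp at hu
    have hge : ∀ (δ : S) x b, #(F (Sum.inr (Sum.inl δ)) ∩ F (Sum.inr (Sum.inr (x, b))) :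
        Set (Gr lam η)) < lam := by
      intro δ x b
      apply hempty
      ext z
      simp only [mem_inter_iff, mem_empty_iff_false, iff_false]
      rintro ⟨⟨y, rfl⟩ | ⟨ε, -, rfl⟩, ⟨y', hy'⟩ | ⟨u, -, hu⟩⟩
      · simp at hy'
      · simp at hu
      · simp at hy'
      · simp at hu
    intro i j hij
    match i, j with
    | Sum.inl γ, Sum.inl γ' =>
      apply hempty
      ext z
      simp only [mem_inter_iff, mem_empty_iff_false, iff_false]
      rintro ⟨⟨y, rfl⟩, ⟨y', hy'⟩⟩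
      simp only [Sum.inl.injEq, Prod.mk.injEq, true_and] at hy'
      exact hij (by rw [hy'.1])
    | Sum.inl γ, Sum.inr (Sum.inl δ) => exact hcg γ δ
    | Sum.inr (Sum.inl δ), Sum.inl γ =>
      rw [inter_comm]
      exact hcg γ δ
    | Sum.inl γ, Sum.inr (Sum.inr (x, b)) => exact hce γ x b
    | Sum.inr (Sum.inr (x, b)), Sum.inl γ =>
      rw [inter_comm]
      exact hce γ x b
    | Sum.inr (Sum.inl δ), Sum.inr (Sum.inr (x, b)) => exact hge δ x b
    | Sum.inr (Sum.inr (x, b)), Sum.inr (Sum.inl δ) =>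
      rw [inter_comm]
      exact hge δ x b
    | Sum.inr (Sum.inl δ), Sum.inr (Sum.inl δ') =>
      have hne : δ.1 ≠ δ'.1 := fun h => hij (by rw [Subtype.ext h])
      refine lt_of_le_of_lt ?_ (hpair δ.1 δ.2.1 δ'.1 δ'.2.1 hne)
      refine (mk_le_mk_of_subset (t := (fun ε => (Sum.inl (false, ε, G δ.1 ε) : Gr lam η)) ''
        (H δ.1 ∩ H δ'.1)) ?_).trans mk_image_le
      rintro z ⟨⟨y, rfl⟩ | ⟨ε, hε, rfl⟩, ⟨y', hy'⟩ | ⟨ε', hε', he⟩⟩
      · simp only [Sum.inl.injEq, Prod.mk.injEq, true_and] at hy'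
        exact absurd hy'.1 hne
      · simp at he
      · simp at hy'
      · simp only [Sum.inl.injEq, Prod.mk.injEq, true_and] at he
        refine ⟨ε, ⟨hε, ?_⟩, rfl⟩
        rw [he.1]
        exact hε'
    | Sum.inr (Sum.inr (x, b)), Sum.inr (Sum.inr (x', b')) =>
      refine lt_of_le_of_lt ?_ (mk_Iio_lt' (κ := lam) x)
      refine (mk_le_mk_of_subset (t := (fun u => (Sum.inr (x, Sum.inr u) : Gr lam η)) ''
        (Iio x)) ?_).trans mk_image_le
      rintro z ⟨⟨y, rfl⟩ | ⟨u, hu, rfl⟩, ⟨y', hy'⟩ | ⟨u', hu', he⟩⟩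
      · simp only [Sum.inr.injEq, Prod.mk.injEq, Sum.inl.injEq] at hy'
        exact absurd (by rw [hy'.1, hy'.2.1]) hij
      · simp at he
      · simp at hy'
      · exact ⟨u, hu, rfl⟩
  have hinj : Function.Injective F := by
    intro i j hij
    by_contra hne
    have h1 := hint i j hne
    rw [hij, inter_self, hsize j] at h1
    exact absurd (h1.trans (hlt.trans (Order.lt_succ η))) (lt_irrefl _)
  have hmem : ∀ i, F i ∈ range F := fun i => mem_range_self i
  refine ⟨Gr lam η, range F, ?_, ?_, ?_, ?_⟩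
  · refine le_antisymm (mk_range_le.trans hIx) ?_
    rw [← hWc]
    exact mk_le_of_injective (f := fun γ : W (Order.succ η) => (⟨F (Sum.inl γ), hmem (Sum.inl γ)⟩ : range F))
      fun γ γ' h => Sum.inl_injective (hinj (congrArg Subtype.val h))
  · rintro _ ⟨i, rfl⟩
    exact hsize i
  · apply le_antisymm
    · refine csInf_le' ?_
      rintro _ ⟨i, rfl⟩ _ ⟨j, rfl⟩ hne
      exact hint i j fun h => hne (by rw [h])
    · by_contra hcon
      obtain ⟨x, hx⟩ := exists_seg _ (not_le.1 hcon)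
      have h1 := lt_degree (hmem (Sum.inr (Sum.inr (x, false))))
        (hmem (Sum.inr (Sum.inr (x, true)))) fun h =>
          absurd (@hinj (Sum.inr (Sum.inr (x, false))) (Sum.inr (Sum.inr (x, true))) h) (by simp)
      rw [← hx] at h1
      refine absurd h1 (not_lt.2 ?_)
      exact mk_le_of_injective (f := fun u : Iio x => (⟨Sum.inr (x, Sum.inr u.1),
        Or.inr ⟨u.1, u.2, rfl⟩, Or.inr ⟨u.1, u.2, rfl⟩⟩ :
        (extr η x false ∩ extr η x true : Set (Gr lam η)))) fun u u' h => by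
          apply Subtype.ext
          simpa using congrArg Subtype.val h
  · rintro ⟨T, hT⟩
    have h1 : ∀ γ : W (Order.succ η), ∃ y, (Sum.inl (false, γ, y) : Gr lam η) ∈ T := by
      intro γ
      obtain ⟨z, hz, y, rfl⟩ := (hT _ (hmem (Sum.inl γ))).1
      exact ⟨y, hz⟩
    choose t ht using h1
    obtain ⟨δ, hδ, -, hδt⟩ := hG' t Set.univ (fun b => by
      obtain ⟨c, hc⟩ := exists_gt' hκ b
      exact ⟨c, mem_univ c, hc⟩) (fun _ _ _ => mem_univ _)
    have h2 := (hT _ (hmem (Sum.inr (Sum.inl ⟨δ, hδ⟩)))).2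
    have h3 : #(H δ) ≤ #(T ∩ F (Sum.inr (Sum.inl ⟨δ, hδ⟩)) : Set (Gr lam η)) := by
      refine mk_le_of_injective (f := fun ε : H δ => ⟨Sum.inl (false, ε.1, G δ ε.1), ?_,
        Or.inr ⟨ε.1, ε.2, rfl⟩⟩) fun ε ε' h => ?_
      · rw [hδt ε.1 (hHδ δ hδ.1 ε.1 ε.2)]
        exact ht ε.1
      · apply Subtype.ext
        have := congrArg Subtype.val h
        simp only [Sum.inl.injEq, Prod.mk.injEq, true_and] at this
        exact this.1
    exact absurd (Order.lt_succ_iff.1 (h3.trans_lt h2)) (not_le.2 (hHl δ hδ.1))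

end Pool.Agent.K9h78.TR
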