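import Mathlib
import Pool.Agent.K9h78.TR.Club

set_option autoImplicit false

/-!
# Essentially disjoint families
-/

namespace Pool.Agent.K9h78.TR

open Cardinal Set

/-- The family becomes disjoint if one removes countably many elements from each member. -/
def ED {I Ω : Type} (A : I → Set Ω) : Prop :=
  ∃ F : I → Set Ω, (∀ i, (F i).Countable) ∧ ∀ i j, i ≠ j → Disjoint (A i \ F i) (A j \ F j)

/-- All families of at most `μ` sets of cardinality at most `ℵ₁` with finite pairwise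
intersections are essentially disjoint. -/
def AllED (μ : Cardinal.{0}) : Prop :=
  ∀ (I Ω : Type) (A : I → Set Ω), #I ≤ μ → (∀ i, #(A i) ≤ Order.succ ℵ₀) →
    (∀ i j, i ≠ j → (A i ∩ A j).Finite) → ED A

theorem AllED.mono {μ ν : Cardinal.{0}} (h : μ ≤ ν) (hν : AllED ν) : AllED μ :=
  fun I Ω A h1 h2 h3 => hν I Ω A (h1.trans h) h2 h3

theorem ed_of_rank {I Ω R : Type} [LinearOrder R] (A : I → Set Ω) (rk : I → R)
    (h1 : ∀ i, {x | x ∈ A i ∧ ∃ j, rk j < rk i ∧ x ∈ A j}.Countable)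
    (h2 : ∀ r, ED (fun i : {i // rk i = r} => A i.1)) : ED A := by
  choose F hF1 hF2 using h2
  refine ⟨fun i => F (rk i) ⟨i, rfl⟩ ∪ {x | x ∈ A i ∧ ∃ j, rk j < rk i ∧ x ∈ A j},
    fun i => (hF1 _ _).union (h1 i), ?_⟩
  have key : ∀ i j, rk i < rk j → Disjoint
      (A i \ (F (rk i) ⟨i, rfl⟩ ∪ {x | x ∈ A i ∧ ∃ j, rk j < rk i ∧ x ∈ A j}))
      (A j \ (F (rk j) ⟨j, rfl⟩ ∪ {x | x ∈ A j ∧ ∃ i, rk i < rk j ∧ x ∈ A i})) := by
    intro i j hij
    rw [Set.disjoint_left]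
    rintro x ⟨hx1, -⟩ ⟨hx2, hx3⟩
    exact hx3 (Or.inr ⟨hx2, i, hij, hx1⟩)
  intro i j hij
  rcases lt_trichotomy (rk i) (rk j) with h | h | h
  · exact key i j h
  · have h3 : ∀ (r : R) (hi : rk i = r) (hj : rk j = r), Disjoint (A i \ F r ⟨i, hi⟩)
        (A j \ F r ⟨j, hj⟩) := fun r hi hj => hF2 r ⟨i, hi⟩ ⟨j, hj⟩
          (fun h => hij (congrArg Subtype.val h))
    have h4 := h3 (rk j) h rfl
    have h5 : F (rk i) ⟨i, rfl⟩ = F (rk j) ⟨i, h⟩ := by
      have : ∀ (r : R) (hi : rk i = r), F (rk i) ⟨i, rfl⟩ = F r ⟨i, hi⟩ := by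
        rintro _ rfl
        rfl
      exact this _ h
    rw [← h5] at h4
    exact h4.mono (sdiff_subset_sdiff_right subset_union_left)
      (sdiff_subset_sdiff_right subset_union_left)
  · exact (key j i h).symm

theorem ed_subsingleton {I Ω : Type} [Subsingleton I] (A : I → Set Ω) : ED A :=
  ⟨fun _ => ∅, fun _ => countable_empty, fun i j h => absurd (Subsingleton.elim i j) h⟩

theorem allED_aleph_one : AllED (Order.succ ℵ₀) := by
  intro I Ω A hI _ h3
  rw [← mk_ord_toType (Order.succ ℵ₀)] at hI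
  obtain ⟨e⟩ := hI
  refine ed_of_rank A (R := W (Order.succ ℵ₀)) e (fun i => ?_) fun r => ?_
  · have h4 : {j : I | e j < e i}.Countable := by
      rw [← le_aleph0_iff_set_countable]
      refine le_trans (mk_le_of_injective (β := Iio (e i)) (f := fun j => ⟨e j.1, j.2⟩) ?_)
        (Order.lt_succ_iff.1 (mk_Iio_lt' (e i)))
      intro x y h
      exact Subtype.ext (e.injective (congrArg Subtype.val h))
    have h5 : {x | x ∈ A i ∧ ∃ j, e j < e i ∧ x ∈ A j} ⊆ ⋃ j ∈ {j : I | e j < e i}, A i ∩ A j := by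
      rintro x ⟨hx, j, hj, hx'⟩
      exact mem_biUnion hj ⟨hx, hx'⟩
    refine Countable.mono h5 (h4.biUnion fun j hj => (h3 i j ?_).countable)
    rintro rfl
    exact lt_irrefl _ (show e i < e i from hj)
  · have : Subsingleton {i // e i = r} :=
      ⟨fun i j => Subtype.ext (e.injective (i.2.trans j.2.symm))⟩
    exact ed_subsingleton _

/-- the largest element of a closed set below a given ordinal -/
theorem exists_floor {κ : Cardinal.{0}} {C : Set (W κ)} (hC : Clo C) (x : W κ) {c₀ : W κ}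
    (h0 : c₀ ∈ C) (h0x : c₀ ≤ x) : ∃ γ ∈ C, γ ≤ x ∧ ∀ c ∈ C, c ≤ x → c ≤ γ := by
  have hne : {y : W κ | ∀ c ∈ C, c ≤ x → c ≤ y}.Nonempty := ⟨x, fun c _ h => h⟩
  let γ := WellFounded.min (wellFounded_lt (α := W κ)) _ hne
  have hγ : ∀ c ∈ C, c ≤ x → c ≤ γ := WellFounded.min_mem _ _ hne
  have hmin : ∀ b < γ, ∃ c ∈ C, c ≤ x ∧ b < c := by
    intro b hb
    by_contra hcon
    push Not at hcon
    exact WellFounded.not_lt_min (wellFounded_lt (α := W κ)) _
      (show b ∈ {y : W κ | ∀ c ∈ C, c ≤ x → c ≤ y} from hcon) hb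
  have hγx : γ ≤ x := by
    by_contra hcon
    obtain ⟨c, -, h1, h2⟩ := hmin x (not_le.1 hcon)
    exact absurd h1 (not_le.2 h2)
  refine ⟨γ, ?_, hγx, hγ⟩
  by_contra hcon
  have hlt : ∀ c ∈ C, c ≤ x → c < γ := fun c hc hcx => lt_of_le_of_ne (hγ c hc hcx)
    fun h => hcon (h ▸ hc)
  refine hcon (hC γ ⟨c₀, hlt c₀ h0 h0x⟩ fun b hb => ?_)
  obtain ⟨c, h1, h2, h3⟩ := hmin b hb
  exact ⟨c, h1, h3, hlt c h1 h2⟩

/-- the type of natural numbers as an ordinal -/
abbrev L0 : Type := (ℵ₀ : Cardinal.{0}).ord.ToType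

/-- the step at regular cardinals -/
theorem allED_regular {μ : Cardinal.{0}} (hμ : μ.IsRegular) (h1 : Order.succ ℵ₀ < μ)
    (hall : ∀ θ < μ, AllED θ) (en : (L0 → W μ) ↪ W μ) (C : Set (W μ)) (hCU : Unb C)
    (hCC : Clo C) (hC : ∀ β ∈ C, ∀ H : Set (W μ), (∀ x ∈ H, x < β) → ℵ₀ < #H →
      ∃ f : L0 → W μ, Function.Injective f ∧ (∀ l, f l ∈ H) ∧ en f < β) : AllED μ := by
  classical
  have h0 : ℵ₀ < μ := (Order.lt_succ _).trans h1
  intro I Ω A hI hA hAA
  rw [← mk_ord_toType μ] at hI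
  obtain ⟨e⟩ := hI
  -- coding of the ground set
  have hΩ : #(⋃ i, A i : Set Ω) ≤ #(W μ) := by
    refine (mk_iUnion_le _).trans ?_
    rw [mk_ord_toType]
    have h2 : #I ≤ μ := by
      rw [← mk_ord_toType μ]
      exact ⟨e⟩
    exact (mul_le_mul' h2 (ciSup_le' fun i => (hA i).trans h1.le)).trans (mul_eq_self h0.le).le
  obtain ⟨v⟩ := hΩ
  have hmem : ∀ i x, x ∈ A i → x ∈ ⋃ i, A i := fun i x hx => mem_iUnion.2 ⟨i, hx⟩
  have hb : ∀ i, ∃ b, ∀ x (hx : x ∈ A i), v ⟨x, hmem i x hx⟩ < b := by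
    intro i
    obtain ⟨b, hb⟩ := exists_ub hμ (M := A i) ((hA i).trans_lt h1)
      fun x => v ⟨x.1, hmem i x.1 x.2⟩
    exact ⟨b, fun x hx => hb ⟨x, hx⟩⟩
  choose b hb using hb
  let g1 : W μ → W μ := Function.extend e b id
  have hg1 : ∀ i, g1 (e i) = b i := fun i => e.injective.extend_apply _ _ _
  let Q : W μ → I → Prop := fun ν i => ∃ f : L0 → W μ, en f = ν ∧ Function.Injective f ∧
    ∀ l, ∃ x, ∃ hx : x ∈ A i, v ⟨x, hmem i x hx⟩ = f l
  let g2 : W μ → W μ := fun ν => if h : ∃ i, Q ν i then e h.choose else ν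
  have hg2 : ∀ ν i, Q ν i → g2 ν = e i := by
    intro ν i hi
    have hex : ∃ i, Q ν i := ⟨i, hi⟩
    have h3 : g2 ν = e hex.choose := dif_pos hex
    rw [h3]
    by_contra hne
    have hne' : hex.choose ≠ i := fun h => hne (by rw [h])
    obtain ⟨f, hf1, hf2, hf3⟩ := hi
    obtain ⟨f', hf1', hf2', hf3'⟩ := hex.choose_spec
    obtain rfl := en.injective (hf1'.trans hf1.symm)
    choose x hx hxf using hf3
    choose x' hx' hxf' using hf3'
    have heq : ∀ l, x l = x' l := fun l =>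
      congrArg Subtype.val (v.injective ((hxf l).trans (hxf' l).symm))
    have h4 := hAA _ _ hne'
    have h5 : (range x).Infinite := by
      have : Infinite L0 := by
        rw [infinite_iff, mk_ord_toType]
      refine infinite_range_of_injective fun l l' h => hf2 ?_
      rw [← hxf l, ← hxf l']
      congr 1
      exact Subtype.ext h
    refine h5 (h4.subset ?_)
    rintro _ ⟨l, rfl⟩
    exact ⟨by rw [heq]; exact hx' l, hx l⟩
  let D : Set (W μ) := C ∩ (Cl g1 ∩ Cl g2)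
  have hDU : Unb D := unb_inter hμ h0 hCU hCC (unb_inter hμ h0 (unb_Cl hμ h0 _) (clo_Cl _)
    (unb_Cl hμ h0 _) (clo_Cl _)) (clo_inter (clo_Cl _) (clo_Cl _))
  have hDC : Clo D := clo_inter hCC (clo_inter (clo_Cl _) (clo_Cl _))
  have hsmall : ∀ β ∈ D, ∀ i, β ≤ e i →
      {x | ∃ hx : x ∈ A i, v ⟨x, hmem i x hx⟩ < β}.Countable := by
    intro β hβ i hi
    by_contra hcon
    have h6 : ℵ₀ < #{x | ∃ hx : x ∈ A i, v ⟨x, hmem i x hx⟩ < β} := by
      by_contra h
      exact hcon (le_aleph0_iff_set_countable.1 (not_lt.1 h))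
    obtain ⟨f, hf1, hf2, hf3⟩ := hC β hβ.1 {y | y < β ∧ ∃ x, ∃ hx : x ∈ A i,
      v ⟨x, hmem i x hx⟩ = y} (fun x hx => hx.1) (by
        refine h6.trans_le (mk_le_of_injective (f := fun x =>
          ⟨v ⟨x.1, hmem i x.1 x.2.choose⟩, x.2.choose_spec, x.1, x.2.choose, rfl⟩) ?_)
        intro x y h
        have h7 := v.injective (congrArg Subtype.val h)
        exact Subtype.ext (congrArg (fun z : (⋃ i, A i : Set Ω) => z.1) h7))
    have h8 := hg2 (en f) i ⟨f, rfl, hf1, fun l => (hf2 l).2⟩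
    have h9 := hβ.2.2 _ hf3
    rw [h8] at h9
    exact absurd hi (not_le.2 h9)
  choose nx hnx1 hnx2 using hDU
  have hne : ∀ i, {c | c ∈ D ∧ e i < c}.Nonempty := fun i => ⟨_, hnx1 (e i), hnx2 (e i)⟩
  let rk : I → W μ := fun i => WellFounded.min (wellFounded_lt (α := W μ)) _ (hne i)
  have hrk : ∀ i, rk i ∈ D ∧ e i < rk i := fun i => WellFounded.min_mem _ _ (hne i)
  have hrkmin : ∀ i c, c ∈ D → e i < c → rk i ≤ c := fun i c h1 h2 =>
    not_lt.1 (WellFounded.not_lt_min (wellFounded_lt (α := W μ)) _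
      (show c ∈ {c | c ∈ D ∧ e i < c} from ⟨h1, h2⟩))
  refine ed_of_rank A rk (fun i => ?_) fun r => ?_
  · by_cases hj0 : ∃ j, rk j < rk i
    · obtain ⟨j0, hj0⟩ := hj0
      have hle : ∀ j, rk j < rk i → rk j ≤ e i := by
        intro j hj
        by_contra hcon
        exact absurd (hrkmin i (rk j) (hrk j).1 (not_le.1 hcon)) (not_le.2 hj)
      obtain ⟨γ, hγ1, hγ2, hγ3⟩ := exists_floor hDC (e i) (hrk j0).1 (hle j0 hj0)
      refine (hsmall γ hγ1 i hγ2).mono ?_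
      rintro x ⟨hx, j, hj, hx'⟩
      refine ⟨hx, ?_⟩
      have h10 : e j < γ := (hrk j).2.trans_le (hγ3 _ (hrk j).1 (hle j hj))
      have h11 := hγ1.2.1 _ h10
      rw [hg1] at h11
      exact (hb j x hx').trans h11
    · refine countable_empty.mono ?_
      rintro x ⟨-, j, hj, -⟩
      exact hj0 ⟨j, hj⟩
  · have h12 : #{i // rk i = r} < μ := by
      refine lt_of_le_of_lt (mk_le_of_injective (β := Iio r) (f := fun i => ⟨e i.1, ?_⟩) ?_)
        (mk_Iio_lt' r)
      · have := (hrk i.1).2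
        rw [i.2] at this
        exact this
      · intro i j h
        exact Subtype.ext (e.injective (congrArg Subtype.val h))
    exact hall _ h12 _ _ _ le_rfl (fun i => hA i.1) fun i j hij =>
      hAA _ _ fun h => hij (Subtype.ext h)

end Pool.Agent.K9h78.TR
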