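import Mathlib
import Pool.Agent.K9h78.TR.Cex
import Pool.Agent.K9h78.TR.App

set_option autoImplicit false

/-!
# The equivalence
-/

namespace Pool.Agent.K9h78.TR

open Cardinal Set

theorem exists_part {η : Cardinal.{0}} (hη : ℵ₀ ≤ η) :
    ∃ (M : Type) (θ : M → Cardinal.{0}), #M = η.ord.cof ∧ (∀ m, θ m < η) ∧
      ∀ E : Type, #E ≤ η → ∃ p : E → M, ∀ m, #{x // p x = m} ≤ θ m := by
  obtain ⟨s, hs, hs'⟩ := Order.exists_cof_eq η.ord.ToType
  rw [Ordinal.cof_toType] at hs'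
  refine ⟨s, fun y => #(Iic y.1), hs', fun y => ?_, fun E hE => ?_⟩
  · have h1 : #(Iio y.1) < η := mk_Iio_lt' (κ := η) y.1
    have h2 : (Iic y.1 : Set η.ord.ToType) ⊆ insert y.1 (Iio y.1) := by
      intro x hx
      rcases (show x ≤ y.1 from hx).eq_or_lt with h | h
      · exact Or.inl h
      · exact Or.inr h
    refine ((mk_le_mk_of_subset h2).trans mk_insert_le).trans_lt ?_
    exact add_lt_of_lt hη h1 (one_lt_aleph0.trans_le hη)
  · rw [← mk_ord_toType η] at hE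
    obtain ⟨e⟩ := hE
    choose p hp1 hp2 using fun x : E => hs (e x)
    refine ⟨fun x => ⟨p x, hp1 x⟩, fun m => ?_⟩
    refine mk_le_of_injective (f := fun x : {x // (⟨p x, hp1 x⟩ : s) = m} =>
      (⟨e x.1, by
        have h := congrArg Subtype.val x.2
        have h2 := hp2 x.1
        simp only at h
        rw [h] at h2
        exact h2⟩ : Iic m.1)) fun x y h => ?_
    exact Subtype.ext (e.injective (congrArg Subtype.val h))

/-- the equivalence and the consequence of approachability -/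
theorem main {lam η : Cardinal.{0}} (hlam : ℵ₀ ≤ lam) (hlt : lam < η)
    (hsl : ∀ x < η, (2 : Cardinal.{0}) ^ x < η) (hcof : η.ord.cof ≤ lam)
    (hG : (2 : Cardinal.{0}) ^ η = Order.succ η) :
    (BadFamily (Order.succ η) lam ↔ StatFamily (Order.succ η) lam) ∧
      (AP (Order.succ η) → ¬ StatFamily (Order.succ η) lam) := by
  obtain ⟨M, θ, hM, hθ, part⟩ := exists_part (hlam.trans hlt.le)
  obtain ⟨s⟩ := exists_setup hlam hlt hsl hG (hM.trans_le hcof) θ hθ part
  refine ⟨⟨stat_of_badFamily hlam hlt hsl s, badFamily_of_stat hlam hlt hG (hM.trans_le hcof)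
    (fun E hE => ?_) s⟩, not_stat_of_ap hlam hlt hsl s⟩
  obtain ⟨p, hp⟩ := part E hE
  exact ⟨p, fun m => (hp m).trans_lt (hθ m)⟩

/-- The Generalized Continuum Hypothesis. -/
def GCH : Prop := ∀ c : Cardinal.{0}, ℵ₀ ≤ c → (2 : Cardinal.{0}) ^ c = Order.succ c

theorem succ_lt_aleph_omega {x : Cardinal.{0}} (h0 : ℵ₀ ≤ x) (hx : x < ℵ_ Ordinal.omega0) :
    Order.succ x < ℵ_ Ordinal.omega0 := by
  obtain ⟨o, rfl⟩ := mem_range_aleph_iff.2 h0
  rw [succ_aleph]
  rw [aleph_lt_aleph] at hx ⊢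
  exact Ordinal.isSuccLimit_omega0.succ_lt hx

theorem gch_two_power {x : Cardinal.{0}} (h : GCH) (hx : x < ℵ_ Ordinal.omega0) :
    (2 : Cardinal.{0}) ^ x < ℵ_ Ordinal.omega0 := by
  rcases lt_or_ge x ℵ₀ with h0 | h0
  · exact (power_lt_aleph0 (natCast_lt_aleph0 (n := 2)) h0).trans_le (aleph0_le_aleph _)
  · rw [h x h0]
    exact succ_lt_aleph_omega h0 hx

theorem cof_aleph_omega : (ℵ_ Ordinal.omega0 : Cardinal.{0}).ord.cof = ℵ₀ := by
  rw [ord_aleph, Ordinal.cof_omega Ordinal.isSuccLimit_omega0, Ordinal.cof_omega0]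

end Pool.Agent.K9h78.TR
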