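import Mathlib
import Pool.Agent.K9h78.TR.ED
import Pool.Agent.K9h78.TR.Main

set_option autoImplicit false

/-!
# Essentially disjoint families below `ℵ_ω`
-/

namespace Pool.Agent.K9h78.TR

open Cardinal Set

theorem mk_L0 : #L0 = ℵ₀ := mk_ord_toType _

theorem succ_pow_aleph0 (hG : GCH) {θ : Cardinal.{0}} (hθ : ℵ₀ ≤ θ) :
    Order.succ θ ^ ℵ₀ = Order.succ θ := by
  rw [← hG θ hθ, ← power_mul, mul_eq_left hθ hθ aleph0_ne_zero]

theorem allED_succ_succ (hG : GCH) {θ : Cardinal.{0}} (hθ : ℵ₀ ≤ θ) (h : AllED (Order.succ θ)) :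
    AllED (Order.succ (Order.succ θ)) := by
  classical
  have hs : ℵ₀ ≤ Order.succ θ := hθ.trans (Order.le_succ θ)
  have hμ : (Order.succ (Order.succ θ)).IsRegular := isRegular_succ hs
  have h0 : ℵ₀ < Order.succ (Order.succ θ) := hs.trans_lt (Order.lt_succ _)
  have h1 : Order.succ ℵ₀ < Order.succ (Order.succ θ) :=
    (Order.succ_le_succ hθ).trans_lt (Order.lt_succ _)
  have hen : #(L0 → W (Order.succ (Order.succ θ))) ≤ #(W (Order.succ (Order.succ θ))) := by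
    rw [← power_def, mk_ord_toType, mk_L0, succ_pow_aleph0 hG hs]
  obtain ⟨en⟩ := hen
  have hub : ∀ γ : W (Order.succ (Order.succ θ)), ∃ u, ∀ f : L0 → Iio γ,
      en (fun l => (f l).1) < u := by
    intro γ
    refine exists_ub hμ ?_ _
    rw [← power_def, mk_L0]
    refine lt_of_le_of_lt ?_ (Order.lt_succ (Order.succ θ))
    exact (power_le_power_right (Order.lt_succ_iff.1 (mk_Iio_lt' γ))).trans
      (succ_pow_aleph0 hG hθ).le
  choose g hg using hub
  refine allED_regular hμ h1 (fun θ' hθ' => AllED.mono (Order.lt_succ_iff.1 hθ') h) en (Cl g)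
    (unb_Cl hμ h0 g) (clo_Cl g) fun β hβ H hH1 hH2 => ?_
  have hγ : ∃ γ < β, ¬ (H ∩ Iio γ).Finite := by
    by_contra hcon
    push Not at hcon
    have h2 : #L0 ≤ #H := mk_L0.trans_le hH2.le
    obtain ⟨f⟩ := h2
    have hH3 : H ⊆ ⋃ l, insert (f l).1 (H ∩ Iio (f l).1) := by
      intro x hx
      by_contra hx'
      have h3 : ∀ l, (f l).1 < x := by
        intro l
        by_contra hl
        refine hx' (mem_iUnion.2 ⟨l, ?_⟩)
        rcases (not_lt.1 hl).eq_or_lt with h4 | h4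
        · exact Or.inl h4
        · exact Or.inr ⟨hx, h4⟩
      have h5 : (range fun l => (f l).1).Infinite := by
        have : Infinite L0 := by rw [infinite_iff, mk_L0]
        exact infinite_range_of_injective fun l l' h => f.injective (Subtype.ext h)
      refine h5 ((hcon x (hH1 x hx)).subset ?_)
      rintro _ ⟨l, rfl⟩
      exact ⟨(f l).2, h3 l⟩
    have h6 : H.Countable := by
      have : Countable L0 := by rw [← mk_le_aleph0_iff, mk_L0]
      refine Countable.mono hH3 (countable_iUnion fun l => ?_)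
      exact ((hcon _ (hH1 _ (f l).2)).countable).insert _
    exact absurd (le_aleph0_iff_set_countable.2 h6) (not_le.2 hH2)
  obtain ⟨γ, hγβ, hγ⟩ := hγ
  have h7 : #L0 ≤ #(H ∩ Iio γ : Set (W (Order.succ (Order.succ θ)))) := by
    rw [mk_L0, ← infinite_iff]
    exact infinite_coe_iff.2 hγ
  obtain ⟨f⟩ := h7
  exact ⟨fun l => (f l).1, fun l l' h => f.injective (Subtype.ext h), fun l => (f l).2.1,
    (hg γ fun l => ⟨(f l).1, (f l).2.2⟩).trans (hβ γ hγβ)⟩

/-- closing off a set of indices -/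
theorem exists_closure {I Ω : Type} (A : I → Set Ω) {θ : Cardinal.{0}} (hθ : Order.succ ℵ₀ ≤ θ)
    (hpow : θ ^ ℵ₀ ≤ θ) (hA : ∀ i, #(A i) ≤ Order.succ ℵ₀)
    (hAA : ∀ i j, i ≠ j → (A i ∩ A j).Finite) (J : Set I) (hJ : #J ≤ θ) :
    ∃ J' : Set I, J ⊆ J' ∧ #J' ≤ θ ∧
      ∀ i ∉ J', {x | x ∈ A i ∧ ∃ j ∈ J', x ∈ A j}.Countable := by
  classical
  have h0 : ℵ₀ ≤ θ := (Order.le_succ _).trans hθ
  let st : Set I → Set I := fun K => K ∪ {i | {x | x ∈ A i ∧ ∃ j ∈ K, x ∈ A j}.Infinite}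
  have hst : ∀ K : Set I, #K ≤ θ → #(st K) ≤ θ := by
    intro K hK
    refine (mk_union_le _ _).trans ((add_le_add hK ?_).trans (add_eq_self h0).le)
    have hY : #(⋃ j : K, A j.1 : Set Ω) ≤ θ := by
      refine (mk_iUnion_le _).trans ?_
      exact (mul_le_mul' hK (ciSup_le' fun i : K => (hA i.1).trans hθ)).trans (mul_eq_self h0).le
    have hf : ∀ i : {i // {x | x ∈ A i ∧ ∃ j ∈ K, x ∈ A j}.Infinite},
        ∃ f : L0 → (⋃ j : K, A j.1 : Set Ω), Function.Injective f ∧ ∀ l, (f l).1 ∈ A i.1 := by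
      rintro ⟨i, hi⟩
      have h1 : #L0 ≤ #{x | x ∈ A i ∧ ∃ j ∈ K, x ∈ A j} := by
        rw [mk_L0, ← infinite_iff]
        exact infinite_coe_iff.2 hi
      obtain ⟨f⟩ := h1
      refine ⟨fun l => ⟨(f l).1, ?_⟩, fun l l' h => f.injective (Subtype.ext
        (congrArg (fun z : (⋃ j : K, A j.1 : Set Ω) => z.1) h)), fun l => (f l).2.1⟩
      obtain ⟨j, hj, hx⟩ := (f l).2.2
      exact mem_iUnion.2 ⟨⟨j, hj⟩, hx⟩
    choose f hf1 hf2 using hf
    have h2 : #{i // {x | x ∈ A i ∧ ∃ j ∈ K, x ∈ A j}.Infinite} ≤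
        #(L0 → (⋃ j : K, A j.1 : Set Ω)) := by
      refine mk_le_of_injective (f := f) fun i i' h => ?_
      by_contra hne
      have h3 := hAA i.1 i'.1 fun h => hne (Subtype.ext h)
      have h5 : (range fun l => (f i l).1).Infinite := by
        have : Infinite L0 := by rw [infinite_iff, mk_L0]
        exact infinite_range_of_injective fun l l' h => hf1 i (Subtype.ext h)
      refine h5 (h3.subset ?_)
      rintro _ ⟨l, rfl⟩
      exact ⟨hf2 i l, by
        show (f i l).1 ∈ A i'.1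
        rw [h]
        exact hf2 i' l⟩
    refine h2.trans ?_
    rw [← power_def, mk_L0]
    exact (power_le_power_right hY).trans hpow
  let K : ℕ → Set I := fun n => st^[n] J
  have hKs : ∀ n, K (n + 1) = st (K n) := fun n => Function.iterate_succ_apply' _ _ _
  have hK : ∀ n, #(K n) ≤ θ := by
    intro n
    induction n with
    | zero => exact hJ
    | succ n ih =>
      rw [hKs]
      exact hst _ ih
  refine ⟨⋃ n, K n, subset_iUnion K 0, ?_, fun i hi => ?_⟩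
  · refine (mk_iUnion_le _).trans ?_
    rw [mk_nat]
    exact (mul_le_mul' h0 (ciSup_le' hK)).trans (mul_eq_self h0).le
  · have h6 : {x | x ∈ A i ∧ ∃ j ∈ ⋃ n, K n, x ∈ A j} ⊆
        ⋃ n, {x | x ∈ A i ∧ ∃ j ∈ K n, x ∈ A j} := by
      rintro x ⟨hx, j, hj, hx'⟩
      obtain ⟨n, hn⟩ := mem_iUnion.1 hj
      exact mem_iUnion.2 ⟨n, hx, j, hn, hx'⟩
    refine (countable_iUnion fun n => ?_).mono h6
    refine Set.Finite.countable ?_
    by_contra hcon
    refine hi (mem_iUnion.2 ⟨n + 1, ?_⟩)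
    rw [hKs]
    exact Or.inr hcon

theorem allED_cof_omega {μ : Cardinal.{0}} (hμ : ℵ₀ ≤ μ) (hcof : μ.ord.cof ≤ ℵ₀)
    (h : ∀ x < μ, ∃ a, x ≤ a ∧ Order.succ ℵ₀ ≤ a ∧ a ^ ℵ₀ ≤ a ∧ AllED a) : AllED μ := by
  classical
  intro I Ω A hI hA hAA
  obtain ⟨M, θ, hM, hθ, part⟩ := exists_part hμ
  obtain ⟨p, hp⟩ := part I hI
  rw [← hM] at hcof
  have hMc : Countable M := mk_le_aleph0_iff.1 hcof
  obtain ⟨c, hc⟩ := exists_injective_nat M
  choose a ha1 ha2 ha3 ha4 using fun m => h (θ m) (hθ m)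
  choose J hJ1 hJ2 hJ3 using fun m => exists_closure A (ha2 m) (ha3 m) hA hAA {i | p i = m}
    ((hp m).trans (ha1 m))
  have hne : ∀ i, ∃ n, ∃ m, c m = n ∧ i ∈ J m := fun i => ⟨c (p i), p i, rfl, hJ1 _ rfl⟩
  let rk : I → ℕ := fun i => Nat.find (hne i)
  refine ed_of_rank A rk (fun i => ?_) fun r => ?_
  · have h1 : {x | x ∈ A i ∧ ∃ j, rk j < rk i ∧ x ∈ A j} ⊆
        ⋃ m ∈ {m | i ∉ J m}, {x | x ∈ A i ∧ ∃ j ∈ J m, x ∈ A j} := by
      rintro x ⟨hx, j, hj, hx'⟩
      obtain ⟨m, hm1, hm2⟩ := Nat.find_spec (hne j)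
      refine mem_biUnion (x := m) ?_ ⟨hx, j, hm2, hx'⟩
      intro hcon
      exact absurd ⟨m, hm1, hcon⟩ (Nat.find_min (hne i) hj)
    exact ((to_countable _).biUnion fun m hm => hJ3 m i hm).mono h1
  · rcases isEmpty_or_nonempty {i // rk i = r} with h2 | ⟨⟨i0, hi0⟩⟩
    · exact ed_subsingleton _
    · obtain ⟨m, hm1, hm2⟩ := Nat.find_spec (hne i0)
      have h3 : ∀ i : {i // rk i = r}, i.1 ∈ J m := by
        rintro ⟨i, hi⟩
        obtain ⟨m', hm1', hm2'⟩ := Nat.find_spec (hne i)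
        have : m' = m := hc (hm1'.trans ((hi.trans hi0.symm).trans hm1.symm))
        rwa [this] at hm2'
      refine ha4 m _ _ _ ?_ (fun i => hA i.1) fun i j hij => hAA _ _ fun h => hij (Subtype.ext h)
      exact (mk_le_of_injective (f := fun i : {i // rk i = r} => (⟨i.1, h3 i⟩ : J m))
        fun i j h => Subtype.ext (congrArg (fun z : J m => z.1) h)).trans (hJ2 m)

theorem allED_succ_aleph (hG : GCH) (n : ℕ) : AllED (Order.succ (ℵ_ (n : Ordinal.{0}))) := by
  induction n with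
  | zero =>
    rw [Nat.cast_zero, aleph_zero]
    exact allED_aleph_one
  | succ n ih =>
    rw [Nat.cast_succ, ← succ_aleph]
    exact allED_succ_succ hG (aleph0_le_aleph _) ih

theorem allED_aleph_omega (hG : GCH) : AllED (ℵ_ Ordinal.omega0) := by
  refine allED_cof_omega (aleph0_le_aleph _) cof_aleph_omega.le fun x hx => ?_
  have h1 : ∃ n : ℕ, x ≤ ℵ_ (n : Ordinal.{0}) := by
    rcases lt_or_ge x ℵ₀ with h0 | h0
    · exact ⟨0, h0.le.trans (aleph0_le_aleph _)⟩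
    · obtain ⟨o, rfl⟩ := mem_range_aleph_iff.2 h0
      rw [aleph_lt_aleph, Ordinal.lt_omega0] at hx
      obtain ⟨n, rfl⟩ := hx
      exact ⟨n, le_rfl⟩
  obtain ⟨n, hn⟩ := h1
  exact ⟨_, hn.trans (Order.le_succ _), Order.succ_le_succ (aleph0_le_aleph _),
    (succ_pow_aleph0 hG (aleph0_le_aleph _)).le, allED_succ_aleph hG n⟩

end Pool.Agent.K9h78.TR
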