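import Mathlib
import Pool.Agent.K9h78.TR.ED2

set_option autoImplicit false

/-!
# Property `B`
-/

namespace Pool.Agent.K9h78.TR

open Cardinal Set

/-- There is a family of subsets of `κ` of cardinality `lam⁺`, any two of which have fewer than
`lam` common elements, without property `B`: no set `T` splits all the members of the family (a
member is split by `T` if it contains a point of `T` and a point outside `T`). -/
def UnsplitFamily (κ lam : Cardinal.{0}) : Prop :=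
  ∃ 𝒜 : Set (Set (W κ)), (∀ A ∈ 𝒜, #A = Order.succ lam) ∧
    (∀ A ∈ 𝒜, ∀ B ∈ 𝒜, A ≠ B → #(A ∩ B : Set (W κ)) < lam) ∧
    ¬ ∃ T : Set (W κ), ∀ A ∈ 𝒜, (A ∩ T).Nonempty ∧ (A \ T).Nonempty

theorem splits_of_ed {I Ω : Type} {A : I → Set Ω} (h : ED A) (hA : ∀ i, ℵ₀ < #(A i)) :
    ∃ T : Set Ω, ∀ i, (A i ∩ T).Nonempty ∧ (A i \ T).Nonempty := by
  obtain ⟨F, hF1, hF2⟩ := h
  have hinf : ∀ i, (A i \ F i).Infinite := by
    intro i hfin
    have h1 : (A i).Countable := by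
      refine ((hfin.countable).union (hF1 i)).mono fun x hx => ?_
      by_cases h : x ∈ F i
      · exact Or.inr h
      · exact Or.inl ⟨hx, h⟩
    exact absurd (le_aleph0_iff_set_countable.2 h1) (not_le.2 (hA i))
  have hex : ∀ i, ∃ x ∈ A i \ F i, ∃ y ∈ A i \ F i, x ≠ y := fun i =>
    ((hinf i).nontrivial)
  choose x hx y hy hxy using hex
  refine ⟨range x, fun i => ⟨⟨x i, (hx i).1, mem_range_self i⟩, ⟨y i, (hy i).1, ?_⟩⟩⟩
  rintro ⟨j, hj⟩
  by_cases hij : i = j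
  · subst hij
    exact hxy i hj
  · exact Set.disjoint_left.1 (hF2 i j hij) (hy i) (hj ▸ hx j)

variable {lam η : Cardinal.{0}}

theorem unsplit_of_stat (hlam : ℵ₀ ≤ lam) (hlt : lam < η)
    (hG : (2 : Cardinal.{0}) ^ η = Order.succ η) {M : Type}
    (hM : #M ≤ lam) (part : ∀ E : Type, #E ≤ η → ∃ p : E → M, ∀ m, #{x // p x = m} < η)
    (s : Setup lam η) (h : StatFamily (Order.succ η) lam) : UnsplitFamily (Order.succ η) lam := by
  classical
  have hη : ℵ₀ ≤ η := hlam.trans hlt.le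
  have hκ : (Order.succ η).IsRegular := isRegular_succ hη
  have h0 : ℵ₀ < Order.succ η := hη.trans_lt (Order.lt_succ η)
  obtain ⟨S0, H, hS0, hHδ, hHl, hpair⟩ := h
  obtain ⟨C, hCU, hCC, hC⟩ := small_init hlam hlt s hpair
  obtain ⟨fl, hfl⟩ := cl_sub_lm (κ := Order.succ η) hκ
  let S : Set (W (Order.succ η)) := S0 ∩ (C ∩ Cl fl)
  have hS : Stationary S := hS0.inter hκ h0 (unb_inter hκ h0 hCU hCC (unb_Cl hκ h0 _) (clo_Cl _))
    (clo_inter hCC (clo_Cl _))
  obtain ⟨G, hG'⟩ := diamond hη hG (hM.trans hlt.le) part hS (fun δ hδ => hfl hδ.2.2)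
    (fun δ hδ b hb => by
      obtain ⟨β, h1, h2⟩ := exists_above hlam (hHl δ hδ.1) (hC δ hδ.1 hδ.2.1) hM b hb
      exact ⟨β, hHδ δ hδ.1 β h1, fun m => (h2 m).le⟩)
  have hne : Nonempty (W (Order.succ η)) := by
    rw [← mk_ne_zero_iff, mk_ord_toType]
    exact (lt_of_le_of_lt (zero_le) (Order.lt_succ η)).ne'
  obtain ⟨c0⟩ := hne
  obtain ⟨c1, hc1⟩ := exists_gt' hκ c0
  have hA : ∀ δ, ∃ A : Set (W (Order.succ η)), δ ∈ S → A ⊆ H δ ∧ #A = Order.succ lam ∧
      ((∀ x ∈ A, G δ x = c0) ∨ ∀ x ∈ A, G δ x ≠ c0) := by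
    intro δ
    by_cases hδ : δ ∈ S
    · rcases lt_or_ge lam #{x | x ∈ H δ ∧ G δ x = c0} with h1 | h1
      · obtain ⟨A, h2, h3⟩ := le_mk_iff_exists_subset.1 (Order.succ_le_of_lt h1)
        exact ⟨A, fun _ => ⟨fun x hx => (h2 hx).1, h3, Or.inl fun x hx => (h2 hx).2⟩⟩
      · rcases lt_or_ge lam #{x | x ∈ H δ ∧ G δ x ≠ c0} with h4 | h4
        · obtain ⟨A, h2, h3⟩ := le_mk_iff_exists_subset.1 (Order.succ_le_of_lt h4)
          exact ⟨A, fun _ => ⟨fun x hx => (h2 hx).1, h3, Or.inr fun x hx => (h2 hx).2⟩⟩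
        · exfalso
          have h5 : H δ ⊆ {x | x ∈ H δ ∧ G δ x = c0} ∪ {x | x ∈ H δ ∧ G δ x ≠ c0} := by
            intro x hx
            by_cases h : G δ x = c0
            · exact Or.inl ⟨hx, h⟩
            · exact Or.inr ⟨hx, h⟩
          have h6 := ((mk_le_mk_of_subset h5).trans (mk_union_le _ _)).trans
            ((add_le_add h1 h4).trans (add_eq_self hlam).le)
          exact absurd h6 (not_le.2 (hHl δ hδ.1))
    · exact ⟨∅, fun h => absurd h hδ⟩
  choose A hA using hA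
  refine ⟨A '' S, ?_, ?_, ?_⟩
  · rintro _ ⟨δ, hδ, rfl⟩
    exact (hA δ hδ).2.1
  · rintro _ ⟨γ, hγ, rfl⟩ _ ⟨δ, hδ, rfl⟩ hne
    refine lt_of_le_of_lt (mk_le_mk_of_subset ?_) (hpair γ hγ.1 δ hδ.1 fun h => hne (by rw [h]))
    exact inter_subset_inter (hA γ hγ).1 (hA δ hδ).1
  · rintro ⟨T, hT⟩
    obtain ⟨δ, hδ, -, hδt⟩ := hG' (fun x => if x ∈ T then c0 else c1) Set.univ (fun b => by
      obtain ⟨c, hc⟩ := exists_gt' hκ b
      exact ⟨c, mem_univ c, hc⟩) (fun _ _ _ => mem_univ _)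
    have h7 : ∀ x ∈ A δ, (G δ x = c0 ↔ x ∈ T) := by
      intro x hx
      rw [hδt x (hHδ δ hδ.1 x ((hA δ hδ).1 hx))]
      constructor
      · intro h
        by_contra hcon
        simp only [if_neg hcon] at h
        exact hc1.ne' h
      · intro h
        simp only [if_pos h]
    obtain ⟨⟨x, hx1, hx2⟩, ⟨y, hy1, hy2⟩⟩ := hT _ ⟨δ, hδ, rfl⟩
    rcases (hA δ hδ).2.2 with h8 | h8
    · exact hy2 ((h7 y hy1).1 (h8 y hy1))
    · exact h8 x hx1 ((h7 x hx1).2 hx2)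

/-- from unsplit families to stationary families -/
theorem stat_of_unsplit (hG : GCH) (h : UnsplitFamily (Order.succ (ℵ_ Ordinal.omega0)) ℵ₀) :
    StatFamily (Order.succ (ℵ_ Ordinal.omega0)) ℵ₀ := by
  classical
  have hη : ℵ₀ ≤ (ℵ_ Ordinal.omega0 : Cardinal.{0}) := aleph0_le_aleph _
  have hlt : ℵ₀ < (ℵ_ Ordinal.omega0 : Cardinal.{0}) := by
    rw [← aleph_zero, aleph_lt_aleph]
    exact Ordinal.omega0_pos
  have hκ : (Order.succ (ℵ_ Ordinal.omega0 : Cardinal.{0})).IsRegular := isRegular_succ hη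
  obtain ⟨M, θ, hM, hθ, part⟩ := exists_part hη
  rw [cof_aleph_omega] at hM
  obtain ⟨s⟩ := exists_setup le_rfl hlt (fun x hx => gch_two_power hG hx) (hG _ hη) hM.le θ hθ
    part
  by_contra hcon
  have hns : ¬ Stationary s.Bd := fun hs =>
    hcon (stat_of_bd le_rfl hlt (fun x hx => gch_two_power hG hx) s hs)
  unfold Stationary at hns
  push Not at hns
  obtain ⟨C, hCU, hCC, hC⟩ := hns
  have hall : AllED (Order.succ (ℵ_ Ordinal.omega0)) := by
    refine allED_regular hκ ?_ (fun θ' hθ' => AllED.mono (Order.lt_succ_iff.1 hθ')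
      (allED_aleph_omega hG)) s.en C hCU hCC fun β hβ H hH1 hH2 => ?_
    · exact (Order.succ_le_of_lt hlt).trans_lt (Order.lt_succ _)
    · by_contra hcon'
      push Not at hcon'
      exact hC β ⟨H, hH1, hH2, hcon'⟩ hβ
  obtain ⟨𝒜, h1, h2, h3⟩ := h
  apply h3
  have hinf : ∀ A : 𝒜, ∃ f : L0 → W (Order.succ (ℵ_ Ordinal.omega0)), Function.Injective f ∧
      ∀ l, f l ∈ A.1 := by
    intro A
    have h4 : #L0 ≤ #A.1 := by
      rw [mk_L0, h1 A.1 A.2]
      exact Order.le_succ _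
    obtain ⟨f⟩ := h4
    exact ⟨fun l => (f l).1, fun l l' h => f.injective (Subtype.ext h), fun l => (f l).2⟩
  choose f hf1 hf2 using hinf
  have hcard : #𝒜 ≤ Order.succ (ℵ_ Ordinal.omega0) := by
    refine le_trans (mk_le_of_injective (f := fun A => s.en (f A)) fun A B hAB => ?_)
      (mk_ord_toType (Order.succ (ℵ_ Ordinal.omega0))).le
    have h5 : f A = f B := s.en.injective hAB
    by_contra hne
    have h6 := h2 A.1 A.2 B.1 B.2 fun h => hne (Subtype.ext h)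
    have h7 : #L0 ≤ #(A.1 ∩ B.1 : Set (W (Order.succ (ℵ_ Ordinal.omega0)))) :=
      mk_le_of_injective (f := fun l => ⟨f A l, hf2 A l, by
        rw [h5]
        exact hf2 B l⟩) fun l l' h => hf1 A (congrArg Subtype.val h)
    rw [mk_L0] at h7
    exact absurd h6 (not_lt.2 h7)
  obtain ⟨T, hT⟩ := splits_of_ed (hall 𝒜 _ (fun A => A.1) hcard (fun A => (h1 A.1 A.2).le)
    fun A B hne => lt_aleph0_iff_set_finite.1 (h2 A.1 A.2 B.1 B.2 fun h => hne (Subtype.ext h)))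
    fun A => by
      rw [h1 A.1 A.2]
      exact Order.lt_succ _
  exact ⟨T, fun A hA => hT ⟨A, hA⟩⟩

end Pool.Agent.K9h78.TR
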